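import Mathlib

namespace Pool.Agent.Results.MP_e22fa6_co.Sorted

/-! ### Algebraic inequalities -/

theorem K_ge (a b s : ℕ) (U : ℝ) (ha : 1 ≤ a) (hb : 1 ≤ b) (hU : 0 ≤ U)
    (h1 : U + 1 ≤ (s : ℝ) * b / (a + b)) (h2 : U ≤ ((a : ℝ) + b - s) * a / (a + b)) :
    U * (1 + 1 / a) ≤ (s : ℝ) * ((a : ℝ) + b - s) / (a + b) := by
  have ha' : (1 : ℝ) ≤ a := by exact_mod_cast ha
  have hb' : (1 : ℝ) ≤ b := by exact_mod_cast hb
  have hN : (0 : ℝ) < a + b := by linarith
  have hs0 : (0 : ℝ) ≤ s := Nat.cast_nonneg s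
  rw [le_div_iff₀ hN] at h1 h2 ⊢
  have hUa : U * (a + b) / a ≤ (a : ℝ) + b - s := by
    rw [div_le_iff₀ (by linarith)]
    exact h2
  have h3 : U * (1 + 1 / a) * (a + b) = U * (a + b) + U * (a + b) / a := by
    field_simp
  rw [h3]
  have h4 : (0 : ℝ) ≤ (a : ℝ) + b - s := le_trans (by positivity) hUa
  rcases Nat.lt_or_ge a s with h | h
  · have h5 : (a : ℝ) + 1 ≤ s := by exact_mod_cast h
    nlinarith
  · have h5 : (s : ℝ) ≤ a := by exact_mod_cast h
    have hs1 : 1 ≤ s := by
      rcases Nat.eq_zero_or_pos s with h6 | h6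
      · rw [h6] at h1
        simp at h1
        nlinarith
      · exact h6
    have hs1' : (1 : ℝ) ≤ s := by exact_mod_cast hs1
    nlinarith

theorem L1 (a b s : ℕ) (U0 U ρ : ℝ) (ha : 1 ≤ a) (hb : 1 ≤ b) (hU0 : 0 ≤ U0) (hU : 0 ≤ U)
    (hρ : 0 ≤ ρ) (hs : s ≤ a + b)
    (h1 : U0 ≤ (s : ℝ) * b / (a + b)) (h2 : U0 ≤ ((a : ℝ) + b - s) * a / (a + b))
    (h3 : U ≤ ρ * U0) :
    (1 + (a + b) / (2 * a * b)) * (U * (U + 1)) ≤
      (U0 + 1 / 2) * (ρ * (ρ * ((s : ℝ) * ((a : ℝ) + b - s) / (a + b)) + 1)) := by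
  have ha' : (1 : ℝ) ≤ a := by exact_mod_cast ha
  have hb' : (1 : ℝ) ≤ b := by exact_mod_cast hb
  have hN : (0 : ℝ) < a + b := by linarith
  have hs0 : (0 : ℝ) ≤ s := Nat.cast_nonneg s
  have hs' : (s : ℝ) ≤ a + b := by exact_mod_cast hs
  set K : ℝ := (s : ℝ) * ((a : ℝ) + b - s) / (a + b) with hK
  have hKU : U0 ≤ K := by
    rcases le_total (s : ℝ) a with h | h
    · refine h1.trans ?_
      rw [hK, div_le_div_iff_of_pos_right hN]
      nlinarith
    · refine h2.trans ?_
      rw [hK, div_le_div_iff_of_pos_right hN]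
      nlinarith
  have hCU : U0 * (a + b) ≤ a * b := by
    rw [le_div_iff₀ hN] at h1 h2
    rcases le_total (s : ℝ) a with h | h
    · nlinarith
    · nlinarith
  have h4 : (1 + (a + b) / (2 * a * b)) * U0 ≤ U0 + 1 / 2 := by
    have h5 : (a + b) / (2 * a * b) * U0 ≤ 1 / 2 := by
      rw [div_mul_eq_mul_div, div_le_iff₀ (by positivity)]
      nlinarith
    nlinarith
  have hq : 0 ≤ (1 + ((a : ℝ) + b) / (2 * a * b)) := by positivity
  calc (1 + ((a : ℝ) + b) / (2 * a * b)) * (U * (U + 1))
      ≤ (1 + (a + b) / (2 * a * b)) * (ρ * U0 * (ρ * U0 + 1)) := by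
        apply mul_le_mul_of_nonneg_left _ hq
        nlinarith
    _ = ρ * (((1 + (a + b) / (2 * a * b)) * U0) * (ρ * U0 + 1)) := by ring
    _ ≤ ρ * ((U0 + 1 / 2) * (ρ * U0 + 1)) := by
        apply mul_le_mul_of_nonneg_left _ hρ
        apply mul_le_mul_of_nonneg_right h4
        positivity
    _ ≤ ρ * ((U0 + 1 / 2) * (ρ * K + 1)) := by
        apply mul_le_mul_of_nonneg_left _ hρ
        apply mul_le_mul_of_nonneg_left _ (by linarith)
        nlinarith
    _ = _ := by ring

theorem L2 (a b s : ℕ) (U0 U ρ : ℝ) (ha : 1 ≤ a) (hb : 1 ≤ b) (hU0 : 0 ≤ U0) (hU : 0 ≤ U)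
    (hρ : 0 ≤ ρ) (hρ1 : ρ ≤ 1)
    (h1 : U0 + 1 ≤ (s : ℝ) * b / (a + b)) (h2 : U0 ≤ ((a : ℝ) + b - s) * a / (a + b))
    (h3 : U ≤ (U0 + 1) * ρ - 1) :
    (1 + 1 / a) * (U * (U + 1)) ≤
      (U0 + 1 / 2) * (ρ * (ρ * ((s : ℝ) * ((a : ℝ) + b - s) / (a + b)) + 1)) := by
  have hK := K_ge a b s U0 ha hb hU0 h1 h2
  set K : ℝ := (s : ℝ) * ((a : ℝ) + b - s) / (a + b)
  have ha' : (1 : ℝ) ≤ a := by exact_mod_cast ha
  set q : ℝ := 1 + 1 / a with hq
  have hq1 : 1 ≤ q := by
    have : (0 : ℝ) ≤ 1 / a := by positivity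
    linarith
  have hq2 : q ≤ 2 := by
    have : (1 : ℝ) / a ≤ 1 := by
      rw [div_le_one (by linarith)]
      exact ha'
    linarith
  have e1 : U * (U + 1) ≤ ((U0 + 1) * ρ - 1) * ((U0 + 1) * ρ) := by nlinarith
  have e2 : q * (U * (U + 1)) ≤ q * (((U0 + 1) * ρ - 1) * ((U0 + 1) * ρ)) :=
    mul_le_mul_of_nonneg_left e1 (by linarith)
  refine e2.trans ?_
  have e3 : q * (U0 + 1) * ((U0 + 1) * ρ - 1) ≤ (U0 + 1 / 2) * (ρ * (U0 * q) + 1) := by
    have g0 : 0 ≤ (1 - ρ) * ((U0 + 1 / 2) + q * (U0 + 1)) :=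
      mul_nonneg (by linarith) (by positivity)
    have g1 : 0 ≤ ρ * (U0 * (1 - q / 2) + 1 / 2) :=
      mul_nonneg hρ (by nlinarith)
    nlinarith
  have e4 : (U0 + 1 / 2) * (ρ * (U0 * q) + 1) ≤ (U0 + 1 / 2) * (ρ * K + 1) := by
    apply mul_le_mul_of_nonneg_left _ (by linarith)
    nlinarith
  calc q * (((U0 + 1) * ρ - 1) * ((U0 + 1) * ρ)) = ρ * (q * (U0 + 1) * ((U0 + 1) * ρ - 1)) := by
        ring
    _ ≤ ρ * ((U0 + 1 / 2) * (ρ * K + 1)) := mul_le_mul_of_nonneg_left (e3.trans e4) hρ
    _ = _ := by ring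

theorem L3 (a b s : ℕ) (U0 U ρ : ℝ) (ha : 1 ≤ a) (hb : 1 ≤ b) (hU0 : 0 ≤ U0) (hU : 0 ≤ U)
    (hρ : 0 ≤ ρ) (hs : s ≤ a + b)
    (h1 : U0 ≤ (s : ℝ) * b / (a + b)) (h2 : U0 + 1 ≤ ((a : ℝ) + b - s) * a / (a + b))
    (h3 : U ≤ ρ * U0) :
    (1 + 1 / b) * (U * (U + 1)) ≤
      (U0 + 1 / 2) * (ρ * (ρ * ((s : ℝ) * ((a : ℝ) + b - s) / (a + b)) + 1)) +
        1 / 2 * (ρ * s / (a + b)) := by
  have ha' : (1 : ℝ) ≤ a := by exact_mod_cast ha
  have hb' : (1 : ℝ) ≤ b := by exact_mod_cast hb
  have hN : (0 : ℝ) < a + b := by linarith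
  have hs0 : (0 : ℝ) ≤ s := Nat.cast_nonneg s
  have hs' : (s : ℝ) ≤ a + b := by exact_mod_cast hs
  have hK : U0 * (1 + 1 / b) ≤ (s : ℝ) * ((a : ℝ) + b - s) / (a + b) := by
    obtain ⟨L, hL⟩ : ∃ L : ℕ, a + b = s + L := ⟨a + b - s, by omega⟩
    have hL' : (a : ℝ) + b = s + L := by exact_mod_cast hL
    have hL2 : (a : ℝ) + b - s = L := by linarith
    have hL3 : (b : ℝ) + a - L = s := by linarith
    have h := K_ge b a L U0 hb ha hU0 (by rw [hL2] at h2; rw [add_comm (b : ℝ)]; exact h2)
      (by rw [hL3, add_comm (b : ℝ)]; exact h1)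
    rw [hL3] at h
    rw [hL2]
    calc U0 * (1 + 1 / b) ≤ _ := h
      _ = _ := by rw [add_comm (b : ℝ), mul_comm (L : ℝ)]
  set K : ℝ := (s : ℝ) * ((a : ℝ) + b - s) / (a + b)
  set q : ℝ := 1 + 1 / b with hq
  have hq1 : 1 ≤ q := by
    have : (0 : ℝ) ≤ 1 / b := by positivity
    linarith
  have e1 : U * (U + 1) ≤ ρ * U0 * (ρ * U0 + 1) := by nlinarith
  have e2 : q * (U * (U + 1)) ≤ q * (ρ * U0 * (ρ * U0 + 1)) :=
    mul_le_mul_of_nonneg_left e1 (by linarith)
  refine e2.trans ?_
  have hUb : U0 / b ≤ s / (a + b) := by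
    rw [div_le_div_iff₀ (by linarith) hN]
    rw [le_div_iff₀ hN] at h1
    exact h1
  have hsN : (s : ℝ) / (a + b) ≤ 1 := by
    rw [div_le_one hN]
    exact hs'
  have e3 : q * U0 ≤ U0 + 1 / 2 + 1 / 2 * (s / (a + b)) := by
    have : q * U0 = U0 + U0 / b := by rw [hq]; ring
    rw [this]
    linarith
  have e4 : ρ * (q * U0 * U0) ≤ ρ * ((U0 + 1 / 2) * K) := by
    apply mul_le_mul_of_nonneg_left _ hρ
    nlinarith
  calc q * (ρ * U0 * (ρ * U0 + 1)) = ρ * (ρ * (q * U0 * U0) + q * U0) := by ring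
    _ ≤ ρ * (ρ * ((U0 + 1 / 2) * K) + (U0 + 1 / 2 + 1 / 2 * (s / (a + b)))) := by
        apply mul_le_mul_of_nonneg_left _ hρ
        linarith
    _ = _ := by ring


theorem core (a b s t : ℕ) (e0 e1 U0 U κ : ℝ) (ha : 1 ≤ a) (hb : 1 ≤ b)
    (he0 : e0 = 0 ∨ e0 = 1) (he1 : e1 = 0 ∨ e1 = 1) (hs : 1 ≤ s) (hsN : s ≤ a + b) (hts : t ≤ s)
    (hU0 : 0 ≤ U0) (hU : 0 ≤ U)
    (h1 : U0 + e0 ≤ (s : ℝ) * b / (a + b)) (h2 : U0 + e1 ≤ ((a : ℝ) + b - s) * a / (a + b))
    (h3 : U = U0 - ((s : ℝ) - t) * b / (a + b))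
    (hκ1 : e0 = e1 → κ = 1 + (a + b) / (2 * a * b)) (hκ2 : e0 = 1 → e1 = 0 → κ = 1 + 1 / a)
    (hκ3 : e0 = 0 → e1 = 1 → κ = 1 + 1 / b) :
    κ * (U * (U + 1)) ≤ (U0 + 1 / 2) *
      ((t : ℝ) / s * ((t : ℝ) / s * ((s : ℝ) * ((a : ℝ) + b - s) / (a + b)) + 1)) +
        e1 * (1 - e0) * (1 / 2 * ((t : ℝ) / (a + b))) := by
  have ha' : (1 : ℝ) ≤ a := by exact_mod_cast ha
  have hb' : (1 : ℝ) ≤ b := by exact_mod_cast hb
  have hs' : (1 : ℝ) ≤ s := by exact_mod_cast hs
  have ht0 : (0 : ℝ) ≤ t := Nat.cast_nonneg t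
  have hts' : (t : ℝ) ≤ s := by exact_mod_cast hts
  have hN : (0 : ℝ) < a + b := by linarith
  have hρ : (0 : ℝ) ≤ t / s := by positivity
  have hρ1 : (t : ℝ) / s ≤ 1 := by
    rw [div_le_one (by linarith)]
    exact hts'
  have hgen : ∀ e : ℝ, U0 + e ≤ (s : ℝ) * b / (a + b) →
      U ≤ U0 - (1 - (t : ℝ) / s) * (U0 + e) := by
    intro e he
    have g1 : ((s : ℝ) - t) * b / (a + b) = (1 - (t : ℝ) / s) * ((s : ℝ) * b / (a + b)) := by
      field_simp
    rw [h3, g1]
    have : (1 - (t : ℝ) / s) * (U0 + e) ≤ (1 - (t : ℝ) / s) * ((s : ℝ) * b / (a + b)) :=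
      mul_le_mul_of_nonneg_left he (by linarith)
    linarith
  have hl1 : e0 = e1 → κ * (U * (U + 1)) ≤ (U0 + 1 / 2) *
      ((t : ℝ) / s * ((t : ℝ) / s * ((s : ℝ) * ((a : ℝ) + b - s) / (a + b)) + 1)) := by
    intro h
    have he0' : 0 ≤ e0 := by rcases he0 with h | h <;> (rw [h]; try norm_num)
    have he1' : 0 ≤ e1 := by rcases he1 with h | h <;> (rw [h]; try norm_num)
    rw [hκ1 h]
    refine L1 a b s U0 U _ ha hb hU0 hU hρ hsN (by linarith) (by linarith) ?_
    have := hgen 0 (by linarith)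
    nlinarith
  rcases he0 with he0 | he0 <;> rcases he1 with he1 | he1
  · have := hl1 (by rw [he0, he1])
    rw [he1]
    linarith
  · rw [hκ3 he0 he1, he0, he1]
    have h := L3 a b s U0 U ((t : ℝ) / s) ha hb hU0 hU hρ hsN (by rw [he0] at h1; linarith)
      (by rw [he1] at h2; exact h2) (by
        have := hgen 0 (by rw [he0] at h1; exact h1)
        nlinarith)
    have g : (t : ℝ) / s * s / (a + b) = t / (a + b) := by field_simp
    rw [g] at h
    linarith
  · rw [hκ2 he0 he1, he1]
    have h := L2 a b s U0 U ((t : ℝ) / s) ha hb hU0 hU hρ hρ1 (by rw [he0] at h1; exact h1)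
      (by rw [he1] at h2; linarith) (by
        have := hgen 1 (by rw [he0] at h1; exact h1)
        nlinarith)
    linarith
  · have := hl1 (by rw [he0, he1])
    rw [he0]
    linarith

/-! ### Cost coefficients -/

/-- coefficient of the gap after the `t`-th agent in (half) the cost of a structure with coalition
sizes `p`, `q`, the first coalition having `x` of the first `t` agents -/
noncomputable def F (p q t x : ℝ) : ℝ :=
  x * (p - x) / (p - 1) + (t - x) * (q - (t - x)) / (q - 1)

theorem F_le (N s t : ℝ) (hN : 0 < N) (hs : 0 < s) :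
    F (s + 1) (N + 2 - (s + 1)) (t + 1) (t + 1) = (t + 1) * (N + 1 - t) / N - 1 / N -
      (t / s * (t / s * (s * (N - s) / N) + 1)) := by
  unfold F
  have h1 : s + 1 - 1 = s := by ring
  rw [h1]
  field_simp
  ring

theorem F_ge (N s t : ℝ) (hN : 0 < N) (hs : s < N) :
    F (s + 1) (N + 2 - (s + 1)) (t + 1) (s + 1) = (t + 1) * (N + 1 - t) / N - 1 / N -
      ((N - t) / (N - s) * ((N - t) / (N - s) * (s * (N - s) / N) + 1)) := by
  unfold F
  have h1 : N + 2 - (s + 1) - 1 = N - s := by ring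
  rw [h1]
  have h2 : N - s ≠ 0 := by linarith
  field_simp
  ring

theorem F_A (a b t x : ℝ) (ha : 0 < a) (hb : 0 < b) :
    F (a + 1) (b + 1) (t + 1) x = (t + 1) * (a + b + 1 - t) / (a + b) - 1 / (a + b) -
      (a + b) / (a * b) *
        ((x - (2 * a * (t + 1) + (b - a)) / (2 * (a + b))) ^ 2 - 1 / 4) := by
  unfold F
  have h1 : a + 1 - 1 = a := by ring
  have h2 : b + 1 - 1 = b := by ring
  rw [h1, h2]
  have h3 : a + b ≠ 0 := by linarith
  field_simp
  ring


/-! ### The mixture inequality -/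

/-- number of agents of the coalition among the first `t` ones -/
noncomputable def X (c : ℕ → ℝ) (t : ℕ) : ℝ := ∑ i ∈ Finset.range t, c i

theorem X_succ (c : ℕ → ℝ) (t : ℕ) : X c (t + 1) = X c t + c t := Finset.sum_range_succ _ _

/-- centred version of `X` -/
noncomputable def V (a b : ℕ) (c : ℕ → ℝ) (t : ℕ) : ℝ :=
  X c (t + 1) - a * t / (a + b) - 1 / 2

/-- a locally optimal structure -/
structure Good (a b : ℕ) (c : ℕ → ℝ) : Prop where
  ha : 1 ≤ a
  hb : 1 ≤ b
  h01 : ∀ i, c i = 0 ∨ c i = 1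
  hX : X c (a + b + 2) = a + 1
  up : ∀ s, s ≤ a + b → c s = 1 → c (s + 1) = 0 → 1 / 2 ≤ V a b c s
  dn : ∀ s, s ≤ a + b → c s = 0 → c (s + 1) = 1 → V a b c s ≤ -(1 / 2)

/-- weights -/
noncomputable def mu (a b : ℕ) (c : ℕ → ℝ) (s : ℕ) : ℝ := (c s - c (s + 1)) * V a b c s

/-- coefficients of the sorted structure with prefix of size `s + 1` at the gap `t + 1` -/
noncomputable def Fs (N s t : ℕ) : ℝ := F (s + 1) (N + 2 - (s + 1)) (t + 1) ((min t s : ℕ) + 1)

/-- defect -/
noncomputable def R (N s t : ℕ) : ℝ := ((t : ℝ) + 1) * (N + 1 - t) / N - 1 / N - Fs N s t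

theorem R_of_le (N s t : ℕ) (hN : 1 ≤ N) (hs : 1 ≤ s) (h : t ≤ s) :
    R N s t = (t : ℝ) / s * ((t : ℝ) / s * ((s : ℝ) * (N - s) / N) + 1) := by
  have hN' : (0 : ℝ) < N := by exact_mod_cast hN
  have hs' : (0 : ℝ) < s := by exact_mod_cast hs
  rw [R, Fs, min_eq_left h, F_le N s t hN' hs']
  ring

theorem R_of_ge (N s t : ℕ) (hN : 1 ≤ N) (hs : s < N) (h : s ≤ t) :
    R N s t = ((N : ℝ) - t) / (N - s) *
      (((N : ℝ) - t) / (N - s) * ((s : ℝ) * (N - s) / N) + 1) := by
  have hN' : (0 : ℝ) < N := by exact_mod_cast hN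
  have hs' : (s : ℝ) < N := by exact_mod_cast hs
  rw [R, Fs, min_eq_right h, F_ge N s t hN' hs']
  ring

theorem R_nonneg (N s t : ℕ) (hN : 1 ≤ N) (hs : s ≤ N) (ht : t ≤ N) : 0 ≤ R N s t := by
  have hN' : (0 : ℝ) < N := by exact_mod_cast hN
  have hs' : (s : ℝ) ≤ N := by exact_mod_cast hs
  have ht' : (t : ℝ) ≤ N := by exact_mod_cast ht
  have hs0 : (0 : ℝ) ≤ s := Nat.cast_nonneg s
  have ht0 : (0 : ℝ) ≤ t := Nat.cast_nonneg t
  have hK : 0 ≤ (s : ℝ) * (N - s) / N := div_nonneg (mul_nonneg hs0 (by linarith)) hN'.le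
  rcases Nat.lt_or_ge s N with h | h
  · rcases le_total s t with h2 | h2
    · rw [R_of_ge N s t hN h h2]
      have h3 : 0 ≤ ((N : ℝ) - t) / (N - s) := div_nonneg (by linarith) (by linarith)
      positivity
    · rcases Nat.eq_zero_or_pos s with h3 | h3
      · have h4 : t = 0 := by omega
        rw [R_of_ge N s t hN h (by omega)]
        have h3 : 0 ≤ ((N : ℝ) - t) / (N - s) := div_nonneg (by linarith) (by linarith)
        positivity
      · rw [R_of_le N s t hN h3 h2]
        positivity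
  · rw [R_of_le N s t hN (by omega) (by omega)]
    positivity

section
variable {a b : ℕ} {c : ℕ → ℝ}

theorem V_succ (t : ℕ) : V a b c (t + 1) = V a b c t + (c (t + 1) - a / (a + b)) := by
  unfold V
  rw [X_succ]
  push_cast
  ring

theorem V_zero : V a b c 0 = c 0 - 1 / 2 := by
  simp [V, X]

theorem X_le (h01 : ∀ i, c i = 0 ∨ c i = 1) (s d : ℕ) :
    X c s ≤ X c (s + d) ∧ X c (s + d) ≤ X c s + d := by
  induction d with
  | zero => simp
  | succ d ih =>
    rw [← add_assoc, X_succ]
    rcases h01 (s + d) with h | h <;> rw [h] <;> push_cast <;> constructor <;> linarith [ih.1, ih.2]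

theorem V_last (h : Good a b c) : V a b c (a + b) = 1 / 2 - c (a + b + 1) := by
  have ha' : (1 : ℝ) ≤ a := by exact_mod_cast h.ha
  have hb' : (1 : ℝ) ≤ b := by exact_mod_cast h.hb
  have h1 := h.hX
  rw [X_succ] at h1
  unfold V
  have h2 : (a : ℝ) * ((a + b : ℕ) : ℝ) / (a + b) = a := by
    push_cast
    field_simp
  rw [h2]
  linarith

theorem V_le1 (h : Good a b c) (s : ℕ) : V a b c s ≤ c 0 - 1 / 2 + s * b / (a + b) := by
  have ha' : (1 : ℝ) ≤ a := by exact_mod_cast h.ha
  have hb' : (1 : ℝ) ≤ b := by exact_mod_cast h.hb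
  have h1 := (X_le h.h01 1 s).2
  rw [add_comm 1 s] at h1
  have h2 : X c 1 = c 0 := by simp [X]
  rw [h2] at h1
  unfold V
  have h3 : (s : ℝ) - a * s / (a + b) = s * b / (a + b) := by field_simp; ring
  linarith

theorem V_le2 (h : Good a b c) (s : ℕ) (hs : s ≤ a + b) :
    V a b c s ≤ 1 / 2 - c (a + b + 1) + ((a : ℝ) + b - s) * a / (a + b) := by
  have ha' : (1 : ℝ) ≤ a := by exact_mod_cast h.ha
  have hb' : (1 : ℝ) ≤ b := by exact_mod_cast h.hb
  rw [← V_last h]
  obtain ⟨d, hd⟩ : ∃ d, a + b = s + d := ⟨a + b - s, by omega⟩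
  have h1 := (X_le h.h01 (s + 1) d).1
  have h4 : s + 1 + d = a + b + 1 := by omega
  rw [h4] at h1
  unfold V
  push_cast
  have h3 : ((a : ℝ) + b - s) * a / (a + b) = a * (a + b) / (a + b) - a * s / (a + b) := by ring
  linarith

theorem mu_nonneg (h : Good a b c) (s : ℕ) (hs : s ≤ a + b) : 0 ≤ mu a b c s := by
  unfold mu
  rcases h.h01 s with h1 | h1 <;> rcases h.h01 (s + 1) with h2 | h2
  · rw [h1, h2]; simp
  · have := h.dn s hs h1 h2
    rw [h1, h2]; linarith
  · have := h.up s hs h1 h2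
    rw [h1, h2]; linarith
  · rw [h1, h2]; simp

/-- total weight -/
noncomputable def Z (a b : ℕ) (c : ℕ → ℝ) : ℝ := ∑ s ∈ Finset.range (a + b + 1), mu a b c s

theorem Z_partial (h01 : ∀ i, c i = 0 ∨ c i = 1) (m : ℕ) :
    ∑ s ∈ Finset.range (m + 1), mu a b c s =
      (c 0 - a / (a + b)) * (c 0 - 1 / 2) - (c (m + 1) - a / (a + b)) * V a b c m +
        (X c (m + 1) - c 0) * (1 - 2 * (a / (a + b))) + m * (a / (a + b)) ^ 2 := by
  induction m with
  | zero =>
    simp only [zero_add, Finset.sum_range_one, mu, V_zero, X]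
    push_cast
    ring
  | succ m ih =>
    rw [Finset.sum_range_succ, ih, mu, V_succ, X_succ c (m + 1)]
    push_cast
    have hsq : c (m + 1) * c (m + 1) = c (m + 1) := by
      rcases h01 (m + 1) with h | h <;> rw [h] <;> norm_num
    linear_combination hsq

theorem Z_eq (h : Good a b c) :
    Z a b c = (c 0 - a / (a + b)) * (c 0 - 1 / 2) -
      (c (a + b + 1) - a / (a + b)) * (1 / 2 - c (a + b + 1)) +
        (a + 1 - c (a + b + 1) - c 0) * (1 - 2 * (a / (a + b))) +
          (a + b) * (a / (a + b)) ^ 2 := by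
  have h1 := Z_partial (a := a) (b := b) h.h01 (a + b)
  have h2 := h.hX
  rw [X_succ] at h2
  have h3 : X c (a + b + 1) = a + 1 - c (a + b + 1) := by linarith
  rw [Z, h1, V_last h, h3]
  push_cast
  ring

theorem kappa (h : Good a b c) :
    (1 - c 0 = c (a + b + 1) → Z a b c * ((a + b) / (a * b)) = 1 + (a + b) / (2 * a * b)) ∧
    (1 - c 0 = 1 → c (a + b + 1) = 0 → Z a b c * ((a + b) / (a * b)) = 1 + 1 / a) ∧
    (1 - c 0 = 0 → c (a + b + 1) = 1 → Z a b c * ((a + b) / (a * b)) = 1 + 1 / b) := by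
  have ha' : (1 : ℝ) ≤ a := by exact_mod_cast h.ha
  have hb' : (1 : ℝ) ≤ b := by exact_mod_cast h.hb
  have h0 : (a : ℝ) ≠ 0 := by linarith
  have h0' : (b : ℝ) ≠ 0 := by linarith
  have h0'' : (a : ℝ) + b ≠ 0 := by linarith
  rw [Z_eq h]
  refine ⟨?_, ?_, ?_⟩
  · intro h1
    rcases h.h01 0 with h2 | h2
    · have h3 : c (a + b + 1) = 1 := by rw [← h1, h2]; ring
      rw [h2, h3]
      field_simp
      ring
    · have h3 : c (a + b + 1) = 0 := by rw [← h1, h2]; ring
      rw [h2, h3]
      field_simp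
      ring
  · intro h1 h3
    have h2 : c 0 = 0 := by linarith
    rw [h2, h3]
    field_simp
    ring
  · intro h1 h3
    have h2 : c 0 = 1 := by linarith
    rw [h2, h3]
    field_simp
    ring

theorem cross_down (h01 : ∀ i, c i = 0 ∨ c i = 1) (i d : ℕ) (hi : c i = 1)
    (hj : c (i + d) = 0) : ∃ k, i ≤ k ∧ k < i + d ∧ c k = 1 ∧ c (k + 1) = 0 ∧
      ∀ m, i ≤ m → m ≤ k → c m = 1 := by
  induction d with
  | zero => rw [add_zero, hi] at hj; norm_num at hj
  | succ d ih =>
    rcases h01 (i + d) with h | h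
    · obtain ⟨k, h1, h2, h3⟩ := ih h
      exact ⟨k, h1, by omega, h3⟩
    · -- either all of `i..i+d` are one, or there is an earlier drop
      by_cases hall : ∀ m, i ≤ m → m ≤ i + d → c m = 1
      · exact ⟨i + d, by omega, by omega, h, hj, hall⟩
      · push Not at hall
        obtain ⟨m, hm1, hm2, hm3⟩ := hall
        have hex : ∃ m, i ≤ m ∧ c m ≠ 1 := ⟨m, hm1, hm3⟩
        classical
        have hf := Nat.find_spec hex
        have hfm : Nat.find hex ≤ m := Nat.find_min' hex ⟨hm1, hm3⟩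
        have hne : Nat.find hex ≠ i := by
          intro he
          rw [he] at hf
          exact hf.2 hi
        obtain ⟨k, hk⟩ : ∃ k, Nat.find hex = k + 1 := ⟨Nat.find hex - 1, by omega⟩
        have hmin : ∀ m, i ≤ m → m ≤ k → c m = 1 := by
          intro m' h1 h2
          by_contra hc
          exact Nat.find_min hex (by omega : m' < Nat.find hex) ⟨h1, hc⟩
        rw [hk] at hf hfm hne
        refine ⟨k, by omega, by omega, hmin k (by omega) le_rfl, ?_, hmin⟩
        rcases h01 (k + 1) with h5 | h5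
        · exact h5
        · exact absurd h5 hf.2

theorem cross_up (h01 : ∀ i, c i = 0 ∨ c i = 1) (i d : ℕ) (hi : c i = 0)
    (hj : c (i + d) = 1) : ∃ k, i ≤ k ∧ k < i + d ∧ c k = 0 ∧ c (k + 1) = 1 := by
  induction d with
  | zero => rw [add_zero, hi] at hj; norm_num at hj
  | succ d ih =>
    rcases h01 (i + d) with h | h
    · exact ⟨i + d, by omega, by omega, h, hj⟩
    · obtain ⟨k, h1, h2, h3⟩ := ih h
      exact ⟨k, h1, by omega, h3⟩

theorem cross_left (h01 : ∀ i, c i = 0 ∨ c i = 1) (t : ℕ) (ht : c t = 0)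
    (hex : ∃ i ≤ t, c i = 1) : ∃ k, k < t ∧ c k = 1 ∧ c (k + 1) = 0 ∧
      ∀ m, k < m → m ≤ t → c m = 0 := by
  induction t with
  | zero =>
    obtain ⟨i, hi, h⟩ := hex
    have : i = 0 := by omega
    rw [this, ht] at h
    norm_num at h
  | succ t ih =>
    rcases h01 t with h | h
    · have hex' : ∃ i ≤ t, c i = 1 := by
        obtain ⟨i, hi, h2⟩ := hex
        refine ⟨i, ?_, h2⟩
        by_contra hc
        have : i = t + 1 := by omega
        rw [this, ht] at h2
        norm_num at h2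
      obtain ⟨k, h1, h2, h3, h4⟩ := ih h hex'
      refine ⟨k, by omega, h2, h3, fun m hm1 hm2 => ?_⟩
      by_cases hm : m = t + 1
      · rw [hm]; exact ht
      · exact h4 m hm1 (by omega)
    · refine ⟨t, by omega, h, ht, fun m hm1 hm2 => ?_⟩
      have : m = t + 1 := by omega
      rw [this]; exact ht

theorem V_run1 (hN : (a : ℝ) + b ≠ 0) (t d : ℕ) (h : ∀ m, t < m → m ≤ t + d → c m = 1) :
    V a b c (t + d) = V a b c t + d * b / (a + b) := by
  induction d with
  | zero => simp
  | succ d ih =>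
    rw [← add_assoc, V_succ, ih (fun m h1 h2 => h m h1 (by omega)), h (t + d + 1) (by omega)
      (by omega)]
    push_cast
    field_simp
    ring

theorem V_run0 (hN : (a : ℝ) + b ≠ 0) (t d : ℕ) (h : ∀ m, t < m → m ≤ t + d → c m = 0) :
    V a b c (t + d) = V a b c t - d * a / (a + b) := by
  induction d with
  | zero => simp
  | succ d ih =>
    rw [← add_assoc, V_succ, ih (fun m h1 h2 => h m h1 (by omega)), h (t + d + 1) (by omega)
      (by omega)]
    push_cast
    field_simp
    ring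

theorem sum_ge1 (h : Good a b c) (t s : ℕ) (ht : t ≤ a + b) (hs : s ≤ a + b) :
    mu a b c s * R (a + b) s t ≤
      ∑ s ∈ Finset.range (a + b + 1), mu a b c s * R (a + b) s t := by
  have h1 := h.ha
  apply Finset.single_le_sum (f := fun s => mu a b c s * R (a + b) s t)
  · intro i hi
    rw [Finset.mem_range] at hi
    exact mul_nonneg (mu_nonneg h i (by omega)) (R_nonneg _ _ _ (by omega) (by omega) ht)
  · rw [Finset.mem_range]; omega

theorem sum_ge2 (h : Good a b c) (t s s2 : ℕ) (ht : t ≤ a + b) (hs : s ≤ a + b)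
    (hs2 : s2 ≤ a + b) (hne : s ≠ s2) :
    mu a b c s * R (a + b) s t + mu a b c s2 * R (a + b) s2 t ≤
      ∑ s ∈ Finset.range (a + b + 1), mu a b c s * R (a + b) s t := by
  have h1 := h.ha
  rw [← Finset.sum_pair (f := fun s => mu a b c s * R (a + b) s t) hne]
  apply Finset.sum_le_sum_of_subset_of_nonneg
  · intro x hx
    rw [Finset.mem_insert, Finset.mem_singleton] at hx
    rw [Finset.mem_range]
    omega
  · intro i hi _
    rw [Finset.mem_range] at hi
    exact mul_nonneg (mu_nonneg h i (by omega)) (R_nonneg _ _ _ (by omega) (by omega) ht)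

theorem pos_case (h : Good a b c) (t : ℕ) (ht : t ≤ a + b) (hV : 1 / 2 < V a b c t) :
    Z a b c * ((a + b) / (a * b)) * (V a b c t ^ 2 - 1 / 4) ≤
      ∑ s ∈ Finset.range (a + b + 1), mu a b c s * R (a + b) s t := by
  obtain ⟨k1, k2, k3⟩ := kappa h
  set κ : ℝ := Z a b c * ((a + b) / (a * b)) with hκ
  have ha := h.ha
  have hb := h.hb
  have ha' : (1 : ℝ) ≤ a := by exact_mod_cast ha
  have hb' : (1 : ℝ) ≤ b := by exact_mod_cast hb
  have hN0 : (a : ℝ) + b ≠ 0 := by linarith
  have hNpos : (0 : ℝ) < (a : ℝ) + b := by linarith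
  have hUU : V a b c t ^ 2 - 1 / 4 = (V a b c t - 1 / 2) * ((V a b c t - 1 / 2) + 1) := by ring
  rw [hUU]
  have ht1 : 1 ≤ t := by
    by_contra hc
    have : t = 0 := by omega
    rw [this, V_zero] at hV
    rcases h.h01 0 with h0 | h0 <;> rw [h0] at hV <;> norm_num at hV
  have htN : t < a + b := by
    by_contra hc
    have : t = a + b := by omega
    rw [this, V_last h] at hV
    rcases h.h01 (a + b + 1) with h0 | h0 <;> rw [h0] at hV <;> norm_num at hV
  rcases h.h01 t with hct | hct
  · -- left case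
    have hct1 : c (t + 1) = 0 := by
      rcases h.h01 (t + 1) with h1 | h1
      · exact h1
      · have := h.dn t ht hct h1
        linarith
    have hex : ∃ i ≤ t, c i = 1 := by
      by_contra hc
      push Not at hc
      have h0 : ∀ m, m ≤ t → c m = 0 := fun m hm => (h.h01 m).resolve_right (hc m hm)
      have h1 := V_run0 (a := a) (b := b) (c := c) hN0 0 t (fun m _ hm => h0 m (by omega))
      rw [zero_add, V_zero, h0 0 (by omega)] at h1
      have h2 : (0 : ℝ) ≤ t * a / (a + b) := by positivity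
      linarith
    obtain ⟨s, hs1, hs2, hs3, hs4⟩ := cross_left h.h01 t hct hex
    obtain ⟨d, hd⟩ : ∃ d, t = s + d := ⟨t - s, by omega⟩
    have hVs := V_run0 (a := a) (b := b) (c := c) hN0 s d
      (fun m h1 h2 => hs4 m h1 (by omega))
    rw [← hd] at hVs
    have hs' : s ≤ a + b := by omega
    have hU0 : 0 ≤ V a b c s - 1 / 2 := by
      have := h.up s hs' hs2 hs3
      linarith
    obtain ⟨L, hL⟩ : ∃ L, a + b = s + L := ⟨a + b - s, by omega⟩
    obtain ⟨M, hM⟩ : ∃ M, a + b = t + M := ⟨a + b - t, by omega⟩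
    have hL' : (a : ℝ) + b = s + L := by exact_mod_cast hL
    have hM' : (a : ℝ) + b = t + M := by exact_mod_cast hM
    have hd' : (t : ℝ) = s + d := by exact_mod_cast hd
    have hc := core b a L M (c (a + b + 1)) (1 - c 0) (V a b c s - 1 / 2) (V a b c t - 1 / 2) κ
      hb ha (h.h01 _) (by rcases h.h01 0 with h0 | h0 <;> rw [h0] <;> norm_num)
      (by omega) (by omega) (by omega) hU0 (by linarith)
      (by
        have h1 := V_le2 h s hs'
        have h2 : (a : ℝ) + b - s = L := by linarith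
        rw [h2] at h1
        rw [add_comm (b : ℝ)]
        linarith)
      (by
        have h1 := V_le1 h s
        have h2 : (b : ℝ) + a - L = s := by linarith
        rw [h2, add_comm (b : ℝ)]
        linarith)
      (by
        rw [hVs, add_comm (b : ℝ)]
        have h2 : (L : ℝ) - M = d := by linarith
        rw [h2]
        ring)
      (by
        intro h1
        rw [k1 h1.symm]
        ring)
      (by
        intro h1 h2
        rw [k3 h2 h1])
      (by
        intro h1 h2
        rw [k2 h2 h1])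
    have hRs := R_of_ge (a + b) s t (by omega) (by omega) (by omega)
    have hmus : mu a b c s = V a b c s := by
      rw [mu, hs2, hs3]; ring
    have e1 : (((a + b : ℕ) : ℝ) - t) = M := by push_cast; linarith
    have e2 : (((a + b : ℕ) : ℝ) - s) = L := by push_cast; linarith
    have e3 : (b : ℝ) + a - L = s := by linarith
    have e4 : ((a + b : ℕ) : ℝ) = (a : ℝ) + b := by push_cast; ring
    rw [e1, e2, e4] at hRs
    rw [e3, add_comm (b : ℝ) a] at hc
    have hterm : (V a b c s - 1 / 2 + 1 / 2) *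
        ((M : ℝ) / L * ((M : ℝ) / L * ((L : ℝ) * s / (a + b)) + 1)) =
          mu a b c s * R (a + b) s t := by
      rw [hRs, hmus]
      ring
    rw [hterm] at hc
    refine hc.trans ?_
    by_cases hh : c 0 = 0 ∧ c (a + b + 1) = 0
    · obtain ⟨d2, hd2⟩ : ∃ d2, s = 0 + d2 := ⟨s, by omega⟩
      obtain ⟨s2, g1, g2, g3, g4⟩ := cross_up h.h01 0 d2 hh.1 (by rw [← hd2]; exact hs2)
      have hs2' : s2 < s := by omega
      have hm2 : 1 / 2 ≤ mu a b c s2 := by
        have := h.dn s2 (by omega) g3 g4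
        rw [mu, g3, g4]
        linarith
      have hR2 : (M : ℝ) / (a + b) ≤ R (a + b) s2 t := by
        rw [R_of_ge (a + b) s2 t (by omega) (by omega) (by omega), e1, e4]
        have hs2r : (s2 : ℝ) < a + b := by
          have : s2 < a + b := by omega
          exact_mod_cast this
        have hs20 : (0 : ℝ) ≤ s2 := Nat.cast_nonneg _
        have hM0 : (0 : ℝ) ≤ M := Nat.cast_nonneg _
        have q1 : (M : ℝ) / (a + b) ≤ M / ((a : ℝ) + b - s2) := by
          apply div_le_div_of_nonneg_left hM0 (by linarith) (by linarith)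
        have q2 : (0 : ℝ) ≤ M / ((a : ℝ) + b - s2) := div_nonneg hM0 (by linarith)
        have q3 : (0 : ℝ) ≤ (s2 : ℝ) * ((a : ℝ) + b - s2) / (a + b) :=
          div_nonneg (mul_nonneg hs20 (by linarith)) (by linarith)
        nlinarith [mul_nonneg q2 (mul_nonneg q2 q3)]
      refine le_trans ?_ (sum_ge2 h t s s2 ht hs' (by omega) (by omega))
      have hM0 : (0 : ℝ) ≤ (M : ℝ) / (a + b) := by positivity
      rw [hh.1, hh.2]
      nlinarith
    · have hz : (1 - c 0) * (1 - c (a + b + 1)) = 0 := by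
        rcases h.h01 0 with h0 | h0
        · rcases h.h01 (a + b + 1) with h1 | h1
          · exact absurd ⟨h0, h1⟩ hh
          · rw [h1]; ring
        · rw [h0]; ring
      rw [hz, zero_mul, add_zero]
      exact sum_ge1 h t s ht hs'
  · -- right case
    have hex : ∃ d, c (t + d) = 0 ∧ t + d ≤ a + b + 1 := by
      by_contra hc
      push Not at hc
      have h1 : ∀ m, t < m → m ≤ a + b + 1 → c m = 1 := by
        intro m h1 h2
        rcases h.h01 m with h3 | h3
        · exact absurd (by omega) (not_le.2 (hc (m - t) (by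
            have : t + (m - t) = m := by omega
            rw [this]; exact h3)))
        · exact h3
      obtain ⟨M, hM⟩ : ∃ M, a + b = t + M := ⟨a + b - t, by omega⟩
      have h2 := V_run1 (a := a) (b := b) (c := c) hN0 t M (fun m g1 g2 => h1 m g1 (by omega))
      rw [← hM, V_last h, h1 (a + b + 1) (by omega) le_rfl] at h2
      have h3 : (0 : ℝ) ≤ M * b / (a + b) := by positivity
      linarith
    obtain ⟨d0, hd0, hd0'⟩ := hex
    obtain ⟨s, hs1, hs1', hs2, hs3, hs4⟩ := cross_down h.h01 t d0 hct hd0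
    obtain ⟨d, hd⟩ : ∃ d, s = t + d := ⟨s - t, by omega⟩
    have hVs := V_run1 (a := a) (b := b) (c := c) hN0 t d
      (fun m h1 h2 => hs4 m (by omega) (by omega))
    rw [← hd] at hVs
    have hs' : s ≤ a + b := by omega
    have hU0 : 0 ≤ V a b c s - 1 / 2 := by
      have := h.up s hs' hs2 hs3
      linarith
    have hd' : (s : ℝ) = t + d := by exact_mod_cast hd
    have hc := core a b s t (1 - c 0) (c (a + b + 1)) (V a b c s - 1 / 2) (V a b c t - 1 / 2) κ
      ha hb (by rcases h.h01 0 with h0 | h0 <;> rw [h0] <;> norm_num) (h.h01 _)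
      (by omega) (by omega) (by omega) hU0 (by linarith)
      (by
        have h1 := V_le1 h s
        linarith)
      (by
        have h1 := V_le2 h s hs'
        linarith)
      (by
        have h2 : (s : ℝ) - t = d := by linarith
        rw [hVs, h2]
        ring)
      k1 k2 k3
    have hRs := R_of_le (a + b) s t (by omega) (by omega) (by omega)
    have hmus : mu a b c s = V a b c s := by
      rw [mu, hs2, hs3]; ring
    have e4 : ((a + b : ℕ) : ℝ) = (a : ℝ) + b := by push_cast; ring
    rw [e4] at hRs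
    have hterm : (V a b c s - 1 / 2 + 1 / 2) *
        ((t : ℝ) / s * ((t : ℝ) / s * ((s : ℝ) * ((a : ℝ) + b - s) / (a + b)) + 1)) =
          mu a b c s * R (a + b) s t := by
      rw [hRs, hmus]
      ring
    rw [hterm] at hc
    refine hc.trans ?_
    by_cases hh : c 0 = 1 ∧ c (a + b + 1) = 1
    · obtain ⟨d2, hd2⟩ : ∃ d2, a + b + 1 = (s + 1) + d2 := ⟨a + b - s, by omega⟩
      obtain ⟨s2, g1, g2, g3, g4⟩ := cross_up h.h01 (s + 1) d2 hs3 (by rw [← hd2]; exact hh.2)
      have hm2 : 1 / 2 ≤ mu a b c s2 := by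
        have := h.dn s2 (by omega) g3 g4
        rw [mu, g3, g4]
        linarith
      have hR2 : (t : ℝ) / (a + b) ≤ R (a + b) s2 t := by
        rw [R_of_le (a + b) s2 t (by omega) (by omega) (by omega), e4]
        have hs2r : (s2 : ℝ) ≤ a + b := by
          have : s2 ≤ a + b := by omega
          exact_mod_cast this
        have hs20 : (1 : ℝ) ≤ s2 := by
          have : 1 ≤ s2 := by omega
          exact_mod_cast this
        have hM0 : (0 : ℝ) ≤ t := Nat.cast_nonneg _
        have q1 : (t : ℝ) / (a + b) ≤ t / (s2 : ℝ) := by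
          apply div_le_div_of_nonneg_left hM0 (by linarith) (by linarith)
        have q2 : (0 : ℝ) ≤ t / (s2 : ℝ) := div_nonneg hM0 (by linarith)
        have q3 : (0 : ℝ) ≤ (s2 : ℝ) * ((a : ℝ) + b - s2) / (a + b) :=
          div_nonneg (mul_nonneg (by linarith) (by linarith)) (by linarith)
        nlinarith [mul_nonneg q2 (mul_nonneg q2 q3)]
      refine le_trans ?_ (sum_ge2 h t s s2 ht hs' (by omega) (by omega))
      have hM0 : (0 : ℝ) ≤ (t : ℝ) / (a + b) := by positivity
      rw [hh.1, hh.2]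
      nlinarith
    · have hz : c (a + b + 1) * (1 - (1 - c 0)) = 0 := by
        rcases h.h01 0 with h0 | h0
        · rw [h0]; ring
        · rcases h.h01 (a + b + 1) with h1 | h1
          · rw [h1]; ring
          · exact absurd ⟨h0, h1⟩ hh
      rw [hz, zero_mul, add_zero]
      exact sum_ge1 h t s ht hs'

end

section
variable {a b : ℕ} {c : ℕ → ℝ}

theorem X_compl (c : ℕ → ℝ) (t : ℕ) : X (fun i => 1 - c i) t = t - X c t := by
  simp [X, Finset.sum_sub_distrib]

theorem V_compl (h : Good a b c) (t : ℕ) : V b a (fun i => 1 - c i) t = - V a b c t := by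
  have ha' : (1 : ℝ) ≤ a := by exact_mod_cast h.ha
  have hb' : (1 : ℝ) ≤ b := by exact_mod_cast h.hb
  unfold V
  rw [X_compl]
  push_cast
  have h0 : (a : ℝ) + b ≠ 0 := by linarith
  have h0' : (b : ℝ) + a ≠ 0 := by linarith
  field_simp
  ring

theorem Good_compl (h : Good a b c) : Good b a (fun i => 1 - c i) := by
  refine ⟨h.hb, h.ha, ?_, ?_, ?_, ?_⟩
  · intro i
    rcases h.h01 i with h1 | h1
    · right; show 1 - c i = 1; rw [h1]; ring
    · left; show 1 - c i = 0; rw [h1]; ring
  · rw [X_compl, add_comm b a, h.hX]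
    push_cast
    ring
  · intro s hs h1 h2
    rw [V_compl h]
    have := h.dn s (by omega) (by linarith) (by linarith)
    linarith
  · intro s hs h1 h2
    rw [V_compl h]
    have := h.up s (by omega) (by linarith) (by linarith)
    linarith

theorem mu_compl (h : Good a b c) (s : ℕ) : mu b a (fun i => 1 - c i) s = mu a b c s := by
  unfold mu
  rw [V_compl h]
  ring

theorem Z_pos (h : Good a b c) : 0 < Z a b c := by
  obtain ⟨k1, k2, k3⟩ := kappa h
  have ha' : (1 : ℝ) ≤ a := by exact_mod_cast h.ha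
  have hb' : (1 : ℝ) ≤ b := by exact_mod_cast h.hb
  have hp : 0 < ((a : ℝ) + b) / (a * b) := by positivity
  have key : 0 < Z a b c * (((a : ℝ) + b) / (a * b)) := by
    rcases h.h01 0 with h1 | h1 <;> rcases h.h01 (a + b + 1) with h2 | h2
    · rw [k2 (by rw [h1]; ring) h2]; positivity
    · rw [k1 (by rw [h1, h2]; ring)]; positivity
    · rw [k1 (by rw [h1, h2]; ring)]; positivity
    · rw [k3 (by rw [h1]; ring) h2]; positivity
  exact (pos_iff_pos_of_mul_pos key).2 hp

theorem all_case (h : Good a b c) (t : ℕ) (ht : t ≤ a + b) :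
    Z a b c * ((a + b) / (a * b)) * (V a b c t ^ 2 - 1 / 4) ≤
      ∑ s ∈ Finset.range (a + b + 1), mu a b c s * R (a + b) s t := by
  rcases lt_or_ge (1 / 2) (V a b c t) with h1 | h1
  · exact pos_case h t ht h1
  · rcases lt_or_ge (V a b c t) (-(1 / 2)) with h2 | h2
    · have hg := Good_compl h
      have hV := V_compl h t
      have := pos_case hg t (by omega) (by rw [hV]; linarith)
      have hZ : Z b a (fun i => 1 - c i) = Z a b c := by
        unfold Z
        rw [add_comm b a]
        exact Finset.sum_congr rfl (fun s _ => mu_compl h s)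
      rw [hZ, hV, add_comm b a] at this
      have h3 : ((b : ℝ) + a) / (b * a) = (a + b) / (a * b) := by
        rw [add_comm, mul_comm]
      rw [h3, neg_sq] at this
      refine this.trans (le_of_eq ?_)
      exact Finset.sum_congr rfl (fun s _ => by rw [mu_compl h s])
    · have ha' : (1 : ℝ) ≤ a := by exact_mod_cast h.ha
      have hb' : (1 : ℝ) ≤ b := by exact_mod_cast h.hb
      have h3 : 0 ≤ Z a b c * ((a + b) / (a * b)) := mul_nonneg (Z_pos h).le (by positivity)
      have h4 : V a b c t ^ 2 - 1 / 4 ≤ 0 := by nlinarith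
      have h5 : 0 ≤ ∑ s ∈ Finset.range (a + b + 1), mu a b c s * R (a + b) s t := by
        apply Finset.sum_nonneg
        intro i hi
        rw [Finset.mem_range] at hi
        have := h.ha
        exact mul_nonneg (mu_nonneg h i (by omega)) (R_nonneg _ _ _ (by omega) (by omega) ht)
      nlinarith

theorem mixture (h : Good a b c) (t : ℕ) (ht : t ≤ a + b) :
    ∑ s ∈ Finset.range (a + b + 1), mu a b c s * Fs (a + b) s t ≤
      Z a b c * F (a + 1) (b + 1) (t + 1) (X c (t + 1)) := by
  have ha' : (1 : ℝ) ≤ a := by exact_mod_cast h.ha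
  have hb' : (1 : ℝ) ≤ b := by exact_mod_cast h.hb
  have h1 := all_case h t ht
  have h2 : ∑ s ∈ Finset.range (a + b + 1), mu a b c s * R (a + b) s t =
      Z a b c * (((t : ℝ) + 1) * (((a + b : ℕ) : ℝ) + 1 - t) / ((a + b : ℕ) : ℝ) -
        1 / ((a + b : ℕ) : ℝ)) -
        ∑ s ∈ Finset.range (a + b + 1), mu a b c s * Fs (a + b) s t := by
    rw [Z, Finset.sum_mul, ← Finset.sum_sub_distrib]
    apply Finset.sum_congr rfl
    intro s _
    unfold R
    ring
  rw [h2] at h1
  push_cast at h1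
  rw [F_A a b t _ (by linarith) (by linarith)]
  have h3 : X c (t + 1) - (2 * a * (t + 1) + (b - a)) / (2 * (a + b)) = V a b c t := by
    unfold V
    have h0 : (a : ℝ) + b ≠ 0 := by linarith
    field_simp
    ring
  rw [h3]
  linarith

/-- clamping of the split to coalitions of size at least two -/
def cl (N s : ℕ) : ℕ := max 1 (min s (N - 1))

theorem Fs_zero (N s : ℕ) (hs : 1 ≤ s) : Fs N s 0 = 1 := by
  have hs' : (0 : ℝ) < s := by exact_mod_cast hs
  unfold Fs F
  rw [Nat.zero_min]
  push_cast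
  have h1 : (s : ℝ) + 1 - 1 = s := by ring
  rw [h1]
  field_simp
  ring

theorem Fs_last (N s : ℕ) (hs : s < N) : Fs N s N = 1 := by
  have hs' : (s : ℝ) < N := by exact_mod_cast hs
  unfold Fs F
  rw [min_eq_right hs.le]
  have h1 : (N : ℝ) + 2 - (s + 1) - 1 = N - s := by ring
  have h2 : (N : ℝ) - s ≠ 0 := by linarith
  rw [h1]
  have h3 : (N : ℝ) + 1 - (s + 1) = N - s := by ring
  rw [h3]
  field_simp
  ring

theorem Fs_cl (N s t : ℕ) (hN : 2 ≤ N) (hs : s ≤ N) (ht : 1 ≤ t) (ht' : t < N) :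
    Fs N (cl N s) t ≤ Fs N s t := by
  have hN' : (2 : ℝ) ≤ N := by exact_mod_cast hN
  have ht1 : (1 : ℝ) ≤ t := by exact_mod_cast ht
  have ht2 : (t : ℝ) + 1 ≤ N := by exact_mod_cast ht'
  rcases Nat.eq_zero_or_pos s with h | h
  · have h1 : cl N s = 1 := by unfold cl; omega
    rw [h1, h]
    unfold Fs F
    rw [min_eq_right ht, Nat.min_zero]
    push_cast
    have h2 : (N : ℝ) + 2 - (0 + 1) - 1 = N := by ring
    have h3 : (N : ℝ) + 2 - (1 + 1) - 1 = N - 1 := by ring
    rw [h2, h3]
    have h4 : (N : ℝ) + 2 - (0 + 1) - (t + 1 - (0 + 1)) = N + 1 - t := by ring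
    have h5 : (N : ℝ) + 2 - (1 + 1) - (t + 1 - (1 + 1)) = N + 1 - t := by ring
    rw [h4, h5]
    have h6 : ((t : ℝ) + 1 - (1 + 1)) * (N + 1 - t) / (N - 1) ≤
        ((t : ℝ) + 1 - (0 + 1)) * (N + 1 - t) / N := by
      rw [div_le_div_iff₀ (by linarith) (by linarith)]
      nlinarith [mul_nonneg (by linarith : (0:ℝ) ≤ N + 1 - t) (by linarith : (0:ℝ) ≤ N - t)]
    have h7 : ((1 : ℝ) + 1) * (1 + 1 - (1 + 1)) / (1 + 1 - 1) = 0 := by ring
    have h8 : ((0 : ℝ) + 1) * (0 + 1 - (0 + 1)) / (0 + 1 - 1) = 0 := by ring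
    rw [h7, h8]
    linarith
  · rcases Nat.lt_or_ge s N with h1 | h1
    · have h2 : cl N s = s := by unfold cl; omega
      rw [h2]
    · have h2 : s = N := by omega
      have h3 : cl N s = N - 1 := by unfold cl; omega
      rw [h3, h2]
      obtain ⟨M, hM⟩ : ∃ M, N = M + 1 := ⟨N - 1, by omega⟩
      have hM' : (N : ℝ) = M + 1 := by exact_mod_cast hM
      have h4 : min t (N - 1) = t := by omega
      have h5 : min t N = t := by omega
      have h6 : N - 1 = M := by omega
      unfold Fs F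
      rw [h4, h5, h6, hM']
      rw [hM'] at hN' ht2
      push_cast
      have g1 : (t : ℝ) + 1 - (t + 1) = 0 := by ring
      rw [g1]
      have g2 : ((M : ℝ) + 1 - 1) = M := by ring
      have g3 : ((M : ℝ) + 1 + 1 - 1) = M + 1 := by ring
      rw [g2, g3, zero_mul, zero_mul, zero_div, zero_div, add_zero, add_zero]
      rw [div_le_div_iff₀ (by linarith) (by linarith)]
      nlinarith [mul_nonneg (by linarith : (0:ℝ) ≤ (t:ℝ) + 1) (by linarith : (0:ℝ) ≤ (t : ℝ))]

theorem mixture_cl (h : Good a b c) (t : ℕ) (ht : t ≤ a + b) :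
    ∑ s ∈ Finset.range (a + b + 1), mu a b c s * Fs (a + b) (cl (a + b) s) t ≤
      Z a b c * F (a + 1) (b + 1) (t + 1) (X c (t + 1)) := by
  have ha' : (1 : ℝ) ≤ a := by exact_mod_cast h.ha
  have hb' : (1 : ℝ) ≤ b := by exact_mod_cast h.hb
  have ha := h.ha
  have hb := h.hb
  have hcl : ∀ s, 1 ≤ cl (a + b) s ∧ cl (a + b) s < a + b := by
    intro s; unfold cl; omega
  by_cases h0 : t = 0
  · have h1 : ∀ s ∈ Finset.range (a + b + 1),
        mu a b c s * Fs (a + b) (cl (a + b) s) t = mu a b c s := by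
      intro s _
      rw [h0, Fs_zero _ _ (hcl s).1, mul_one]
    rw [Finset.sum_congr rfl h1, ← Z]
    have h2 : F ((a : ℝ) + 1) (b + 1) (t + 1) (X c (t + 1)) = 1 := by
      have h3 : X c (0 + 1) = c 0 := by simp [X]
      rw [h0, h3]
      have e1 : (a : ℝ) + 1 - 1 = a := by ring
      have e2 : (b : ℝ) + 1 - 1 = b := by ring
      unfold F
      rw [e1, e2]
      rcases h.h01 0 with h4 | h4
      · rw [h4]
        push_cast
        field_simp
        ring
      · rw [h4]
        push_cast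
        field_simp
        ring
    rw [h2, mul_one]
  · by_cases hN : t = a + b
    · have h1 : ∀ s ∈ Finset.range (a + b + 1),
          mu a b c s * Fs (a + b) (cl (a + b) s) t = mu a b c s := by
        intro s _
        rw [hN, Fs_last _ _ (hcl s).2, mul_one]
      rw [Finset.sum_congr rfl h1, ← Z]
      have h2 : F ((a : ℝ) + 1) (b + 1) (t + 1) (X c (t + 1)) = 1 := by
        have h3 := h.hX
        rw [X_succ] at h3
        have h3' : X c (a + b + 1) = a + 1 - c (a + b + 1) := by linarith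
        rw [hN, h3']
        have e1 : (a : ℝ) + 1 - 1 = a := by ring
        have e2 : (b : ℝ) + 1 - 1 = b := by ring
        unfold F
        rw [e1, e2]
        push_cast
        rcases h.h01 (a + b + 1) with h4 | h4
        · rw [h4]
          field_simp
          ring
        · rw [h4]
          field_simp
          ring
      rw [h2, mul_one]
    · refine le_trans ?_ (mixture h t ht)
      apply Finset.sum_le_sum
      intro s hs
      rw [Finset.mem_range] at hs
      exact mul_le_mul_of_nonneg_left (Fs_cl _ _ _ (by omega) (by omega) (by omega) (by omega))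
        (mu_nonneg h s (by omega))

theorem exists_split (h : Good a b c) (g : ℕ → ℝ) (hg : ∀ t, 0 ≤ g t) :
    ∃ s, 1 ≤ s ∧ s < a + b ∧ ∑ t ∈ Finset.range (a + b + 1), g t * Fs (a + b) s t ≤
      ∑ t ∈ Finset.range (a + b + 1), g t * F (a + 1) (b + 1) (t + 1) (X c (t + 1)) := by
  have ha := h.ha
  have hb := h.hb
  by_contra hcon
  push Not at hcon
  have hcl : ∀ s, 1 ≤ cl (a + b) s ∧ cl (a + b) s < a + b := by
    intro s; unfold cl; omega
  set CA := ∑ t ∈ Finset.range (a + b + 1), g t * F (a + 1) (b + 1) (t + 1) (X c (t + 1))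
    with hCA
  have h1 : ∑ s ∈ Finset.range (a + b + 1), mu a b c s *
      (∑ t ∈ Finset.range (a + b + 1), g t * Fs (a + b) (cl (a + b) s) t) ≤ Z a b c * CA := by
    rw [hCA, Finset.mul_sum]
    simp_rw [Finset.mul_sum]
    rw [Finset.sum_comm]
    apply Finset.sum_le_sum
    intro t ht
    rw [Finset.mem_range] at ht
    have h2 := mixture_cl h t (by omega)
    calc ∑ s ∈ Finset.range (a + b + 1), mu a b c s * (g t * Fs (a + b) (cl (a + b) s) t)
        = g t * ∑ s ∈ Finset.range (a + b + 1), mu a b c s * Fs (a + b) (cl (a + b) s) t := by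
          rw [Finset.mul_sum]
          exact Finset.sum_congr rfl (fun s _ => by ring)
      _ ≤ g t * (Z a b c * F (a + 1) (b + 1) (t + 1) (X c (t + 1))) :=
          mul_le_mul_of_nonneg_left h2 (hg t)
      _ = _ := by ring
  have h2 : ∑ s ∈ Finset.range (a + b + 1), mu a b c s *
      ((∑ t ∈ Finset.range (a + b + 1), g t * Fs (a + b) (cl (a + b) s) t) - CA) ≤ 0 := by
    have : ∑ s ∈ Finset.range (a + b + 1), mu a b c s *
      ((∑ t ∈ Finset.range (a + b + 1), g t * Fs (a + b) (cl (a + b) s) t) - CA) =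
      ∑ s ∈ Finset.range (a + b + 1), mu a b c s *
      (∑ t ∈ Finset.range (a + b + 1), g t * Fs (a + b) (cl (a + b) s) t) - Z a b c * CA := by
      rw [Z, Finset.sum_mul, ← Finset.sum_sub_distrib]
      exact Finset.sum_congr rfl (fun s _ => by ring)
    rw [this]
    linarith
  have h3 : ∀ s ∈ Finset.range (a + b + 1), 0 ≤ mu a b c s *
      ((∑ t ∈ Finset.range (a + b + 1), g t * Fs (a + b) (cl (a + b) s) t) - CA) := by
    intro s hs
    rw [Finset.mem_range] at hs
    have := hcon (cl (a + b) s) (hcl s).1 (hcl s).2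
    exact mul_nonneg (mu_nonneg h s (by omega)) (by linarith)
  have h4 : ∑ s ∈ Finset.range (a + b + 1), mu a b c s *
      ((∑ t ∈ Finset.range (a + b + 1), g t * Fs (a + b) (cl (a + b) s) t) - CA) = 0 :=
    le_antisymm h2 (Finset.sum_nonneg h3)
  have h5 := (Finset.sum_eq_zero_iff_of_nonneg h3).1 h4
  have h6 : Z a b c = 0 := by
    unfold Z
    apply Finset.sum_eq_zero
    intro s hs
    have h7 := h5 s hs
    have h8 := hcon (cl (a + b) s) (hcl s).1 (hcl s).2
    rcases mul_eq_zero.1 h7 with h9 | h9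
    · exact h9
    · linarith
  exact absurd h6 (Z_pos h).ne'

end

/-- indicator function -/
noncomputable def ind (A : Finset ℕ) (i : ℕ) : ℝ := if i ∈ A then 1 else 0

theorem ind01 (A : Finset ℕ) (i : ℕ) : ind A i = 0 ∨ ind A i = 1 := by
  unfold ind
  split_ifs
  · right; rfl
  · left; rfl

theorem X_ind (A : Finset ℕ) (n : ℕ) (hA : A ⊆ Finset.range n) : X (ind A) n = A.card := by
  unfold X ind
  rw [Finset.sum_ite_mem, Finset.inter_eq_right.2 hA]
  simp

/-- half of the cost of a structure -/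
noncomputable def cst (a b : ℕ) (g : ℕ → ℝ) (c : ℕ → ℝ) : ℝ :=
  ∑ t ∈ Finset.range (a + b + 1), g t * F (a + 1) (b + 1) (t + 1) (X c (t + 1))

theorem cst_change (a b : ℕ) (g c c' : ℕ → ℝ) (s : ℕ) (δ : ℝ) (ha : 1 ≤ a) (hb : 1 ≤ b)
    (hs : s ≤ a + b) (hδ : δ ^ 2 = 1)
    (hX : ∀ t, X c' (t + 1) = X c (t + 1) + if t = s then δ else 0) :
    cst a b g c' = cst a b g c - g s * (((a : ℝ) + b) / (a * b) * (2 * δ * V a b c s + 1)) := by
  have ha' : (0 : ℝ) < a := by exact_mod_cast ha
  have hb' : (0 : ℝ) < b := by exact_mod_cast hb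
  have h1 : ∀ t ∈ Finset.range (a + b + 1), g t * F (a + 1) (b + 1) (t + 1) (X c' (t + 1)) =
      g t * F (a + 1) (b + 1) (t + 1) (X c (t + 1)) +
        if t = s then - (g t * (((a : ℝ) + b) / (a * b) * (2 * δ * V a b c t + 1))) else 0 := by
    intro t _
    rw [hX]
    split_ifs with h
    · rw [F_A a b t _ ha' hb', F_A a b t _ ha' hb']
      have h3 : X c (t + 1) - (2 * a * (t + 1) + (b - a)) / (2 * (a + b)) = V a b c t := by
        unfold V
        have h0 : (a : ℝ) + b ≠ 0 := by linarith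
        field_simp
        ring
      have h4 : X c (t + 1) + δ - (2 * a * (t + 1) + (b - a)) / (2 * (a + b)) =
          V a b c t + δ := by rw [← h3]; ring
      rw [h3, h4]
      have h5 : (V a b c t + δ) ^ 2 = V a b c t ^ 2 + 2 * δ * V a b c t + 1 := by
        rw [← hδ]; ring
      rw [h5]
      ring
    · rw [add_zero, add_zero]
  unfold cst
  rw [Finset.sum_congr rfl h1, Finset.sum_add_distrib, Finset.sum_ite_eq' (Finset.range (a + b + 1))
    s, if_pos (Finset.mem_range.2 (by omega))]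
  ring

theorem X_swap1 (A : Finset ℕ) (s : ℕ) (h1 : s ∈ A) (h2 : s + 1 ∉ A) (t : ℕ) :
    X (ind (insert (s + 1) (A.erase s))) (t + 1) = X (ind A) (t + 1) + if t = s then -1 else 0 := by
  have hpt : ∀ i, ind (insert (s + 1) (A.erase s)) i =
      ind A i + ((if i = s + 1 then 1 else 0) - (if i = s then 1 else 0)) := by
    intro i
    unfold ind
    by_cases e1 : i = s + 1
    · rw [if_pos (by rw [e1]; exact Finset.mem_insert_self _ _), if_neg (by rw [e1]; exact h2),
        if_pos e1, if_neg (by omega)]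
      ring
    · by_cases e2 : i = s
      · rw [if_neg (by rw [Finset.mem_insert, Finset.mem_erase]; simp [e1, e2]),
          if_pos (by rw [e2]; exact h1), if_neg e1, if_pos e2]
        ring
      · by_cases e3 : i ∈ A
        · rw [if_pos (by rw [Finset.mem_insert, Finset.mem_erase]; exact Or.inr ⟨e2, e3⟩),
            if_pos e3, if_neg e1, if_neg e2]
          ring
        · rw [if_neg (by rw [Finset.mem_insert, Finset.mem_erase]; simp [e1, e3]),
            if_neg e3, if_neg e1, if_neg e2]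
          ring
  unfold X
  rw [Finset.sum_congr rfl (fun i _ => hpt i), Finset.sum_add_distrib, Finset.sum_sub_distrib]
  rw [Finset.sum_ite_eq', Finset.sum_ite_eq']
  simp only [Finset.mem_range]
  by_cases e : t = s
  · rw [if_neg (by omega), if_pos (by omega), if_pos e]
    ring
  · rw [if_neg e]
    by_cases e2 : t < s
    · rw [if_neg (by omega), if_neg (by omega)]; ring
    · rw [if_pos (by omega), if_pos (by omega)]; ring

theorem X_swap2 (A : Finset ℕ) (s : ℕ) (h1 : s ∉ A) (h2 : s + 1 ∈ A) (t : ℕ) :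
    X (ind (insert s (A.erase (s + 1)))) (t + 1) = X (ind A) (t + 1) + if t = s then 1 else 0 := by
  have hpt : ∀ i, ind (insert s (A.erase (s + 1))) i =
      ind A i + ((if i = s then 1 else 0) - (if i = s + 1 then 1 else 0)) := by
    intro i
    unfold ind
    by_cases e1 : i = s
    · rw [if_pos (by rw [e1]; exact Finset.mem_insert_self _ _), if_neg (by rw [e1]; exact h1),
        if_pos e1, if_neg (by omega)]
      ring
    · by_cases e2 : i = s + 1
      · rw [if_neg (by rw [Finset.mem_insert, Finset.mem_erase]; simp [e2]),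
          if_pos (by rw [e2]; exact h2), if_neg e1, if_pos e2]
        ring
      · by_cases e3 : i ∈ A
        · rw [if_pos (by rw [Finset.mem_insert, Finset.mem_erase]; exact Or.inr ⟨e2, e3⟩),
            if_pos e3, if_neg e1, if_neg e2]
          ring
        · rw [if_neg (by rw [Finset.mem_insert, Finset.mem_erase]; simp [e1, e3]),
            if_neg e3, if_neg e1, if_neg e2]
          ring
  unfold X
  rw [Finset.sum_congr rfl (fun i _ => hpt i), Finset.sum_add_distrib, Finset.sum_sub_distrib]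
  rw [Finset.sum_ite_eq', Finset.sum_ite_eq']
  simp only [Finset.mem_range]
  by_cases e : t = s
  · rw [if_pos (by omega), if_neg (by omega), if_pos e]
    ring
  · rw [if_neg e]
    by_cases e2 : t < s
    · rw [if_neg (by omega), if_neg (by omega)]; ring
    · rw [if_pos (by omega), if_pos (by omega)]; ring

theorem exists_good (a b : ℕ) (ha : 1 ≤ a) (hb : 1 ≤ b) (g : ℕ → ℝ) (hg : ∀ t, 0 ≤ g t)
    (A0 : Finset ℕ) (hA0 : A0 ∈ Finset.powersetCard (a + 1) (Finset.range (a + b + 2))) :
    ∃ A : Finset ℕ, Good a b (ind A) ∧ cst a b g (ind A) ≤ cst a b g (ind A0) := by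
  have ha' : (1 : ℝ) ≤ a := by exact_mod_cast ha
  have hb' : (1 : ℝ) ≤ b := by exact_mod_cast hb
  have hpos : 0 < ((a : ℝ) + b) / (a * b) := by positivity
  obtain ⟨A, hA, hmin⟩ := Finset.exists_min_image
    (Finset.powersetCard (a + 1) (Finset.range (a + b + 2)))
    (fun A => toLex (cst a b g (ind A), cst a b (fun _ => 1) (ind A))) ⟨A0, hA0⟩
  have hmin' : ∀ A' ∈ Finset.powersetCard (a + 1) (Finset.range (a + b + 2)),
      cst a b g (ind A) < cst a b g (ind A') ∨ (cst a b g (ind A) = cst a b g (ind A') ∧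
        cst a b (fun _ => 1) (ind A) ≤ cst a b (fun _ => 1) (ind A')) := by
    intro A' hA'
    have := hmin A' hA'
    rw [Prod.Lex.le_iff] at this
    exact this
  have hstep : ∀ A' ∈ Finset.powersetCard (a + 1) (Finset.range (a + b + 2)), ∀ s ≤ a + b,
      ∀ δ : ℝ, δ ^ 2 = 1 → (∀ t, X (ind A') (t + 1) = X (ind A) (t + 1) +
        if t = s then δ else 0) → 2 * δ * V a b (ind A) s + 1 ≤ 0 := by
    intro A' hA' s hs δ hδ hX
    have e1 := cst_change a b g (ind A) (ind A') s δ ha hb hs hδ hX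
    have e2 := cst_change a b (fun _ => 1) (ind A) (ind A') s δ ha hb hs hδ hX
    by_contra hc
    push Not at hc
    have h1 : 0 < ((a : ℝ) + b) / (a * b) * (2 * δ * V a b (ind A) s + 1) := mul_pos hpos hc
    rcases hmin' A' hA' with h2 | ⟨h2, h3⟩
    · rw [e1] at h2
      have := mul_nonneg (hg s) h1.le
      linarith
    · rw [e2] at h3
      linarith
  rw [Finset.mem_powersetCard] at hA
  refine ⟨A, ⟨ha, hb, ind01 A, ?_, ?_, ?_⟩, ?_⟩
  · rw [X_ind A _ hA.1, hA.2]
    push_cast
    ring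
  · intro s hs h1 h2
    have h1' : s ∈ A := by
      by_contra hc
      unfold ind at h1
      rw [if_neg hc] at h1
      norm_num at h1
    have h2' : s + 1 ∉ A := by
      intro hc
      unfold ind at h2
      rw [if_pos hc] at h2
      norm_num at h2
    have := hstep (insert (s + 1) (A.erase s)) (by
      rw [Finset.mem_powersetCard]
      constructor
      · intro x hx
        rw [Finset.mem_insert, Finset.mem_erase] at hx
        rcases hx with hx | hx
        · rw [Finset.mem_range]; omega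
        · exact hA.1 hx.2
      · rw [Finset.card_insert_of_notMem (by
          rw [Finset.mem_erase]; exact fun h => h2' h.2), Finset.card_erase_of_mem h1']
        omega) s hs (-1) (by norm_num) (X_swap1 A s h1' h2')
    linarith
  · intro s hs h1 h2
    have h1' : s ∉ A := by
      intro hc
      unfold ind at h1
      rw [if_pos hc] at h1
      norm_num at h1
    have h2' : s + 1 ∈ A := by
      by_contra hc
      unfold ind at h2
      rw [if_neg hc] at h2
      norm_num at h2
    have := hstep (insert s (A.erase (s + 1))) (by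
      rw [Finset.mem_powersetCard]
      constructor
      · intro x hx
        rw [Finset.mem_insert, Finset.mem_erase] at hx
        rcases hx with hx | hx
        · rw [Finset.mem_range]; omega
        · exact hA.1 hx.2
      · rw [Finset.card_insert_of_notMem (by
          rw [Finset.mem_erase]; exact fun h => h1' h.2), Finset.card_erase_of_mem h2']
        omega) s hs 1 (by norm_num) (X_swap2 A s h1' h2')
    linarith
  · rcases hmin' A0 hA0 with h | h
    · exact h.le
    · exact h.1.le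

/-- Every structure with both coalitions of size at least two is at least as expensive as some
split into a prefix and a suffix, both of size at least two. -/
theorem stepA (a b : ℕ) (ha : 1 ≤ a) (hb : 1 ≤ b) (g : ℕ → ℝ) (hg : ∀ t, 0 ≤ g t)
    (A0 : Finset ℕ) (hA0 : A0 ∈ Finset.powersetCard (a + 1) (Finset.range (a + b + 2))) :
    ∃ s, 1 ≤ s ∧ s < a + b ∧ ∑ t ∈ Finset.range (a + b + 1), g t * Fs (a + b) s t ≤
      cst a b g (ind A0) := by
  obtain ⟨A, hA, hle⟩ := exists_good a b ha hb g hg A0 hA0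
  obtain ⟨s, h1, h2, h3⟩ := exists_split hA g hg
  exact ⟨s, h1, h2, h3.trans hle⟩

/-- coefficient of the split of `n` agents into the first `p` ones and the others -/
noncomputable def f (n p T : ℕ) : ℝ := F p ((n : ℝ) - p) T ((min T p : ℕ) : ℝ)

/-- half of the cost of the split -/
noncomputable def spl (n : ℕ) (g : ℕ → ℝ) (p : ℕ) : ℝ :=
  ∑ t ∈ Finset.range (n - 1), g t * f n p (t + 1)

/-- half of the cost of the structure given by `A` and its complement -/
noncomputable def Hc (n : ℕ) (g : ℕ → ℝ) (A : Finset ℕ) : ℝ :=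
  ∑ t ∈ Finset.range (n - 1), g t * F A.card ((n : ℝ) - A.card) ((t : ℝ) + 1) (X (ind A) (t + 1))

/-- cost of one coalition -/
noncomputable def phi (q T : ℝ) : ℝ := T * (q - T) / (q - 1)

theorem f_le (n p T : ℕ) (h : T ≤ p) : f n p T = phi p T := by
  unfold f F phi
  rw [min_eq_left h]
  simp

theorem f_ge (n p T : ℕ) (h : p ≤ T) : f n p T = phi ((n : ℝ) - p) ((n : ℝ) - T) := by
  unfold f F phi
  rw [min_eq_right h]
  have h1 : (n : ℝ) - p - (n - T) = T - p := by ring
  have h2 : (n : ℝ) - p - (T - p) = n - T := by ring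
  rw [h1, h2, sub_self, mul_zero, zero_div, zero_add, mul_comm]

theorem phi_conc (L P R T : ℕ) (hT : 1 ≤ T) (hTL : T ≤ L) (hLP : L < P) (hPR : P < R) :
    ((R : ℝ) - P) * phi L T + ((P : ℝ) - L) * phi R T ≤ ((R : ℝ) - L) * phi P T := by
  have hT' : (1 : ℝ) ≤ T := by exact_mod_cast hT
  have hTL' : (T : ℝ) ≤ L := by exact_mod_cast hTL
  have hLP' : (L : ℝ) < P := by exact_mod_cast hLP
  have hPR' : (P : ℝ) < R := by exact_mod_cast hPR
  unfold phi
  by_cases hL : L = 1
  · have hT1 : T = 1 := by omega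
    rw [hL, hT1]
    rw [hL] at hLP'
    push_cast at hLP' ⊢
    have e1 : (1 : ℝ) * (P - 1) / (P - 1) = 1 := by
      rw [one_mul]; exact div_self (by linarith)
    have e2 : (1 : ℝ) * (R - 1) / (R - 1) = 1 := by
      rw [one_mul]; exact div_self (by linarith)
    rw [e1, e2]
    simp only [sub_self, mul_zero, div_zero, zero_add, mul_one]
    linarith
  · have hL2 : 2 ≤ L := by omega
    have hL' : (2 : ℝ) ≤ L := by exact_mod_cast hL2
    have hL0 : (0 : ℝ) < L - 1 := by linarith
    have hP0 : (0 : ℝ) < P - 1 := by linarith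
    have hR0 : (0 : ℝ) < R - 1 := by linarith
    have key : ((R : ℝ) - L) * (T * (P - T) / (P - 1)) -
        (((R : ℝ) - P) * (T * (L - T) / (L - 1)) + ((P : ℝ) - L) * (T * (R - T) / (R - 1))) =
        T * (T - 1) * (((P : ℝ) - L) * (R - P) * (R - L)) / ((L - 1) * (P - 1) * (R - 1)) := by
      have h1 := hL0.ne'
      have h2 := hP0.ne'
      have h3 := hR0.ne'
      field_simp
      ring
    have h4 : 0 ≤ (T : ℝ) * (T - 1) * (((P : ℝ) - L) * (R - P) * (R - L)) /
        ((L - 1) * (P - 1) * (R - 1)) := by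
      apply div_nonneg
      · apply mul_nonneg
        · exact mul_nonneg (by linarith) (by linarith)
        · exact mul_nonneg (mul_nonneg (by linarith) (by linarith)) (by linarith)
      · positivity
    linarith

theorem phi_mono (L P T : ℕ) (hT : 1 ≤ T) (hTL : T ≤ L) (hLP : L < P) : phi L T ≤ phi P T := by
  have hT' : (1 : ℝ) ≤ T := by exact_mod_cast hT
  have hTL' : (T : ℝ) ≤ L := by exact_mod_cast hTL
  have hLP' : (L : ℝ) < P := by exact_mod_cast hLP
  unfold phi
  by_cases hL : L = 1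
  · have hT1 : T = 1 := by omega
    rw [hL, hT1]
    rw [hL] at hLP'
    push_cast at hLP' ⊢
    have e1 : (1 : ℝ) * (P - 1) / (P - 1) = 1 := by
      rw [one_mul]; exact div_self (by linarith)
    rw [e1]
    simp
  · have hL2 : 2 ≤ L := by omega
    have hL' : (2 : ℝ) ≤ L := by exact_mod_cast hL2
    rw [div_le_div_iff₀ (by linarith) (by linarith)]
    nlinarith [mul_nonneg (mul_nonneg (by linarith : (0 : ℝ) ≤ T) (by linarith : (0 : ℝ) ≤ T - 1))
      (by linarith : (0 : ℝ) ≤ (P : ℝ) - L)]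

theorem phi_one (P : ℕ) (hP : 2 ≤ P) : phi P 1 = 1 := by
  have hP' : (2 : ℝ) ≤ P := by exact_mod_cast hP
  unfold phi
  rw [one_mul]
  exact div_self (by linarith)

theorem f_one (n p : ℕ) (hp : 2 ≤ p) : f n p 1 = 1 := by
  rw [f_le n p 1 (by omega)]
  exact_mod_cast phi_one p hp

theorem f_last (n p : ℕ) (hp : p + 2 ≤ n) : f n p (n - 1) = 1 := by
  rw [f_ge n p (n - 1) (by omega)]
  have h1 : ((n - 1 : ℕ) : ℝ) = n - 1 := by
    rw [Nat.cast_sub (by omega)]; simp
  have h2 : (n : ℝ) - p = ((n - p : ℕ) : ℝ) := by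
    rw [Nat.cast_sub (by omega)]
  rw [h1, h2]
  have h3 : (n : ℝ) - (n - 1) = 1 := by ring
  rw [h3]
  exact phi_one (n - p) (by omega)

theorem f_n_last (n : ℕ) (hn : 2 ≤ n) : f n n (n - 1) = 1 := by
  rw [f_le n n (n - 1) (by omega)]
  have h1 : ((n - 1 : ℕ) : ℝ) = n - 1 := by
    rw [Nat.cast_sub (by omega)]; simp
  have hn' : (2 : ℝ) ≤ n := by exact_mod_cast hn
  unfold phi
  rw [h1]
  have h3 : (n : ℝ) - (n - 1) = 1 := by ring
  rw [h3, mul_one]
  exact div_self (by linarith)

theorem f_conc (n l p r T : ℕ) (hT : 1 ≤ T) (hTn : T < n) (hlp : l < p) (hpr : p < r) (hrn : r ≤ n)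
    (h : T ≤ l ∨ r ≤ T) :
    ((r : ℝ) - p) * f n l T + ((p : ℝ) - l) * f n r T ≤ ((r : ℝ) - l) * f n p T := by
  rcases h with h | h
  · rw [f_le n l T h, f_le n r T (by omega), f_le n p T (by omega)]
    exact phi_conc l p r T hT h hlp hpr
  · rw [f_ge n l T (by omega), f_ge n r T h, f_ge n p T (by omega)]
    have h1 := phi_conc (n - r) (n - p) (n - l) (n - T) (by omega) (by omega) (by omega) (by omega)
    rw [Nat.cast_sub (by omega), Nat.cast_sub (by omega), Nat.cast_sub (by omega),
      Nat.cast_sub (by omega)] at h1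
    have e1 : (n : ℝ) - l - (n - p) = p - l := by ring
    have e2 : (n : ℝ) - p - (n - r) = r - p := by ring
    have e3 : (n : ℝ) - l - (n - r) = r - l := by ring
    rw [e1, e2, e3] at h1
    linarith

/-- Splitting inside of a group of equal values is never better than every split that respects
the group. -/
theorem stepC (n : ℕ) (hn : 2 ≤ n) (g : ℕ → ℝ) (hg : ∀ t, 0 ≤ g t) (uis : Bool) (p : ℕ)
    (hp : p ≤ n) (hu : uis = true → p ≠ 1 ∧ p + 1 ≠ n) :
    ∃ p' ≤ n, (uis = true → p' ≠ 1 ∧ p' + 1 ≠ n) ∧ (p' = 0 ∨ p' = n ∨ 0 < g (p' - 1)) ∧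
      spl n g p' ≤ spl n g p := by
  classical
  by_cases h0 : p = 0 ∨ p = n ∨ 0 < g (p - 1)
  · exact ⟨p, hp, hu, h0, le_rfl⟩
  push Not at h0
  obtain ⟨hp0, hpn, hgp⟩ := h0
  have hgp0 : g (p - 1) = 0 := le_antisymm hgp (hg _)
  -- left end
  obtain ⟨l, hl1, hl2, hl3⟩ : ∃ l, l < p ∧ (l = 0 ∨ 0 < g (l - 1)) ∧
      ∀ T, l < T → T < p → g (T - 1) = 0 := by
    refine ⟨Nat.findGreatest (fun l => l = 0 ∨ 0 < g (l - 1)) (p - 1), ?_, ?_, ?_⟩
    · have := Nat.findGreatest_le (P := fun l => l = 0 ∨ 0 < g (l - 1)) (p - 1)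
      omega
    · exact Nat.findGreatest_spec (P := fun l => l = 0 ∨ 0 < g (l - 1)) (Nat.zero_le (p - 1))
        (Or.inl rfl)
    · intro T h1 h2
      have := Nat.findGreatest_is_greatest (P := fun l => l = 0 ∨ 0 < g (l - 1)) h1
        (by omega : T ≤ p - 1)
      push Not at this
      exact le_antisymm this.2 (hg _)
  -- right end
  obtain ⟨r, hr1, hrn, hr2, hr3⟩ : ∃ r, p < r ∧ r ≤ n ∧ (r = n ∨ 0 < g (r - 1)) ∧
      ∀ T, p < T → T < r → g (T - 1) = 0 := by
    have hex : ∃ r, p < r ∧ (r = n ∨ 0 < g (r - 1)) := ⟨n, by omega, Or.inl rfl⟩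
    refine ⟨Nat.find hex, (Nat.find_spec hex).1, Nat.find_min' hex ⟨by omega, Or.inl rfl⟩,
      (Nat.find_spec hex).2, ?_⟩
    intro T h1 h2
    have := Nat.find_min hex h2
    push Not at this
    exact le_antisymm (this h1).2 (hg _)
  have hzero : ∀ T, l < T → T < r → g (T - 1) = 0 := by
    intro T h1 h2
    rcases lt_trichotomy T p with h | h | h
    · exact hl3 T h1 h
    · rw [h]; exact hgp0
    · exact hr3 T h h2
  have hlp' : (l : ℝ) < p := by exact_mod_cast hl1
  have hpr' : (p : ℝ) < r := by exact_mod_cast hr1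
  -- comparison principle
  have hcmp : ∀ p', (∀ T, 1 ≤ T → T < n → (T ≤ l ∨ r ≤ T) → f n p' T ≤ f n p T) →
      spl n g p' ≤ spl n g p := by
    intro p' h
    unfold spl
    apply Finset.sum_le_sum
    intro t ht
    rw [Finset.mem_range] at ht
    by_cases h1 : t + 1 ≤ l ∨ r ≤ t + 1
    · exact mul_le_mul_of_nonneg_left (h (t + 1) (by omega) (by omega) h1) (hg t)
    · push Not at h1
      have := hzero (t + 1) h1.1 h1.2
      rw [Nat.add_sub_cancel] at this
      rw [this, zero_mul, zero_mul]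
  have hconc : spl n g l ≤ spl n g p ∨ spl n g r ≤ spl n g p := by
    by_contra hc
    push Not at hc
    have h1 : ((r : ℝ) - p) * spl n g l + ((p : ℝ) - l) * spl n g r ≤
        ((r : ℝ) - l) * spl n g p := by
      unfold spl
      rw [Finset.mul_sum, Finset.mul_sum, Finset.mul_sum, ← Finset.sum_add_distrib]
      apply Finset.sum_le_sum
      intro t ht
      rw [Finset.mem_range] at ht
      by_cases h1 : t + 1 ≤ l ∨ r ≤ t + 1
      · have := mul_le_mul_of_nonneg_left (f_conc n l p r (t + 1) (by omega) (by omega) hl1 hr1 hrn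
          h1) (hg t)
        linarith
      · push Not at h1
        have := hzero (t + 1) h1.1 h1.2
        rw [Nat.add_sub_cancel] at this
        rw [this]
        simp
    nlinarith
  by_cases hu' : uis = true
  · obtain ⟨hp1, hp2⟩ := hu hu'
    by_cases hl : l = 1
    · by_cases hr : r + 1 = n
      · refine ⟨n, le_rfl, fun _ => ⟨by omega, by omega⟩, Or.inr (Or.inl rfl), ?_⟩
        apply hcmp
        intro T h1 h2 h3
        rcases h3 with h3 | h3
        · have : T = 1 := by omega
          rw [this, f_one n n (by omega), f_one n p (by omega)]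
        · have : T = n - 1 := by omega
          rw [this, f_n_last n hn, f_last n p (by omega)]
      · refine ⟨r, hrn, fun _ => ⟨by omega, hr⟩, Or.inr hr2, ?_⟩
        apply hcmp
        intro T h1 h2 h3
        rcases h3 with h3 | h3
        · have : T = 1 := by omega
          rw [this, f_one n r (by omega), f_one n p (by omega)]
        · rw [f_ge n r T h3, f_ge n p T (by omega)]
          have := phi_mono (n - r) (n - p) (n - T) (by omega) (by omega) (by omega)
          rwa [Nat.cast_sub (by omega), Nat.cast_sub (by omega), Nat.cast_sub (by omega)] at this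
    · by_cases hr : r + 1 = n
      · refine ⟨l, by omega, fun _ => ⟨hl, by omega⟩, by tauto, ?_⟩
        apply hcmp
        intro T h1 h2 h3
        rcases h3 with h3 | h3
        · rw [f_le n l T h3, f_le n p T (by omega)]
          exact phi_mono l p T h1 h3 hl1
        · have : T = n - 1 := by omega
          rw [this, f_last n l (by omega), f_last n p (by omega)]
      · rcases hconc with h | h
        · exact ⟨l, by omega, fun _ => ⟨hl, by omega⟩, by tauto, h⟩
        · exact ⟨r, hrn, fun _ => ⟨by omega, hr⟩, Or.inr hr2, h⟩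
  · rcases hconc with h | h
    · exact ⟨l, by omega, fun h => absurd h hu', by tauto, h⟩
    · exact ⟨r, hrn, fun h => absurd h hu', Or.inr hr2, h⟩

theorem Hc_compl (n : ℕ) (g : ℕ → ℝ) (A : Finset ℕ) (hA : A ⊆ Finset.range n) :
    Hc n g (Finset.range n \ A) = Hc n g A := by
  unfold Hc
  apply Finset.sum_congr rfl
  intro t ht
  rw [Finset.mem_range] at ht
  have h1 : ((Finset.range n \ A).card : ℝ) = n - A.card := by
    rw [Finset.card_sdiff_of_subset hA, Finset.card_range,
      Nat.cast_sub (by simpa using Finset.card_le_card hA)]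
  have h2 : X (ind (Finset.range n \ A)) (t + 1) = (t : ℝ) + 1 - X (ind A) (t + 1) := by
    unfold X
    rw [eq_sub_iff_add_eq, ← Finset.sum_add_distrib]
    have : ∀ i ∈ Finset.range (t + 1), ind (Finset.range n \ A) i + ind A i = 1 := by
      intro i hi
      rw [Finset.mem_range] at hi
      unfold ind
      by_cases h : i ∈ A
      · rw [if_neg (by simp [h]), if_pos h]; ring
      · rw [if_pos (by rw [Finset.mem_sdiff, Finset.mem_range]; exact ⟨by omega, h⟩), if_neg h]
        ring
    rw [Finset.sum_congr rfl this]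
    simp
  rw [h1, h2]
  congr 1
  unfold F
  have h3 : (t : ℝ) + 1 - (t + 1 - X (ind A) (t + 1)) = X (ind A) (t + 1) := by ring
  have h4 : (n : ℝ) - (n - A.card) = A.card := by ring
  rw [h3, h4]
  ring

theorem X_single (i t : ℕ) : X (ind {i}) (t + 1) = if i ≤ t then 1 else 0 := by
  unfold X ind
  simp only [Finset.mem_singleton]
  rw [Finset.sum_ite_eq']
  simp only [Finset.mem_range, Nat.lt_succ_iff]

/-- A structure with a singleton coalition is at least as expensive as splitting off one of the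
extreme agents. -/
theorem stepB (n : ℕ) (hn : 2 ≤ n) (g : ℕ → ℝ) (hg : ∀ t, 0 ≤ g t) (i : ℕ) (hi : i < n) :
    ∃ p ≤ n, spl n g p ≤ Hc n g {i} := by
  have hn' : (2 : ℝ) ≤ n := by exact_mod_cast hn
  by_cases h2i : 2 * i ≤ n
  · refine ⟨1, by omega, ?_⟩
    unfold spl Hc
    apply Finset.sum_le_sum
    intro t ht
    rw [Finset.mem_range] at ht
    apply mul_le_mul_of_nonneg_left _ (hg t)
    rw [X_single]
    unfold f F
    have h1 : min (t + 1) 1 = 1 := by omega
    rw [h1]
    simp only [Finset.card_singleton, Nat.cast_one]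
    push_cast
    have h2 : (1 : ℝ) * (1 - 1) / (1 - 1) = 0 := by ring
    rw [h2, zero_add]
    split_ifs with h
    · rw [h2, zero_add]
    · have h3 : (0 : ℝ) * (1 - 0) / (1 - 1) = 0 := by ring
      rw [h3, zero_add]
      have h4 : (2 : ℝ) * (t + 1) ≤ n := by
        have : 2 * (t + 1) ≤ n := by omega
        exact_mod_cast this
      rcases Nat.eq_or_lt_of_le hn with h5 | h5
      · rw [← h5]; norm_num
      · have h5' : (3 : ℝ) ≤ n := by exact_mod_cast h5
        rw [div_le_div_iff_of_pos_right (by linarith)]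
        nlinarith
  · refine ⟨n - 1, by omega, ?_⟩
    unfold spl Hc
    apply Finset.sum_le_sum
    intro t ht
    rw [Finset.mem_range] at ht
    apply mul_le_mul_of_nonneg_left _ (hg t)
    rw [X_single, f_le n (n - 1) (t + 1) (by omega)]
    unfold phi F
    have h1 : ((n - 1 : ℕ) : ℝ) = n - 1 := by
      rw [Nat.cast_sub (by omega)]; simp
    rw [h1]
    simp only [Finset.card_singleton, Nat.cast_one]
    push_cast
    split_ifs with h
    · have h2 : (1 : ℝ) * (1 - 1) / (1 - 1) = 0 := by ring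
      rw [h2, zero_add]
      have h4 : (n : ℝ) ≤ 2 * (t + 1) := by
        have : n ≤ 2 * (t + 1) := by omega
        exact_mod_cast this
      rcases Nat.eq_or_lt_of_le hn with h5 | h5
      · rw [← h5]; norm_num
      · have h5' : (3 : ℝ) ≤ n := by exact_mod_cast h5
        rw [div_le_div_iff_of_pos_right (by linarith)]
        nlinarith
    · have h3 : (0 : ℝ) * (1 - 0) / (1 - 1) = 0 := by ring
      rw [h3, zero_add, sub_zero]

theorem stepAB (n : ℕ) (hn : 2 ≤ n) (g : ℕ → ℝ) (hg : ∀ t, 0 ≤ g t) (uis : Bool) (A : Finset ℕ)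
    (hA : A ⊆ Finset.range n) (hu : uis = true → A.card ≠ 1 ∧ A.card + 1 ≠ n) :
    ∃ p ≤ n, (uis = true → p ≠ 1 ∧ p + 1 ≠ n) ∧ spl n g p ≤ Hc n g A := by
  have hcard : A.card ≤ n := by simpa using Finset.card_le_card hA
  by_cases h0 : A.card = 0
  · refine ⟨0, by omega, fun _ => ⟨by omega, by omega⟩, le_of_eq ?_⟩
    have hA0 : A = ∅ := Finset.card_eq_zero.1 h0
    unfold spl Hc
    apply Finset.sum_congr rfl
    intro t _
    rw [hA0]
    unfold f
    rw [Nat.min_zero]
    have : X (ind ∅) (t + 1) = 0 := by simp [X, ind]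
    rw [this]
    simp
  by_cases h1 : A.card = n
  · refine ⟨n, le_rfl, fun _ => ⟨by omega, by omega⟩, le_of_eq ?_⟩
    have hA0 : A = Finset.range n := Finset.eq_of_subset_of_card_le hA (by simp [h1])
    unfold spl Hc
    apply Finset.sum_congr rfl
    intro t ht
    rw [Finset.mem_range] at ht
    rw [hA0]
    unfold f
    rw [min_eq_left (by omega)]
    have : X (ind (Finset.range n)) (t + 1) = t + 1 := by
      unfold X
      have h2 : ∀ i ∈ Finset.range (t + 1), ind (Finset.range n) i = 1 := by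
        intro i hi
        rw [Finset.mem_range] at hi
        unfold ind
        rw [if_pos (Finset.mem_range.2 (by omega))]
      rw [Finset.sum_congr rfl h2]
      simp
    rw [this]
    simp
  by_cases h2 : A.card = 1
  · have hu' : ¬ uis = true := fun h => (hu h).1 h2
    obtain ⟨i, hi⟩ := Finset.card_eq_one.1 h2
    have hin : i < n := by
      rw [hi] at hA
      exact Finset.mem_range.1 (hA (Finset.mem_singleton_self i))
    obtain ⟨p, hp, hle⟩ := stepB n hn g hg i hin
    exact ⟨p, hp, fun h => absurd h hu', by rw [hi]; exact hle⟩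
  by_cases h3 : A.card + 1 = n
  · have hu' : ¬ uis = true := fun h => (hu h).2 h3
    have h4 : (Finset.range n \ A).card = 1 := by
      rw [Finset.card_sdiff_of_subset hA, Finset.card_range]
      omega
    obtain ⟨i, hi⟩ := Finset.card_eq_one.1 h4
    have hin : i < n := by
      have : i ∈ Finset.range n \ A := by rw [hi]; exact Finset.mem_singleton_self i
      exact Finset.mem_range.1 (Finset.mem_sdiff.1 this).1
    obtain ⟨p, hp, hle⟩ := stepB n hn g hg i hin
    refine ⟨p, hp, fun h => absurd h hu', ?_⟩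
    rw [← Hc_compl n g A hA, hi]
    exact hle
  · obtain ⟨a, ha⟩ : ∃ a, A.card = a + 1 := ⟨A.card - 1, by omega⟩
    obtain ⟨b, hb⟩ : ∃ b, n = a + b + 2 := ⟨n - a - 2, by omega⟩
    have hA0 : A ∈ Finset.powersetCard (a + 1) (Finset.range (a + b + 2)) := by
      rw [Finset.mem_powersetCard]
      exact ⟨by rw [← hb]; exact hA, ha⟩
    obtain ⟨s, h5, h6, h7⟩ := stepA a b (by omega) (by omega) g hg A hA0
    refine ⟨s + 1, by omega, fun _ => ⟨by omega, by omega⟩, ?_⟩
    have e1 : spl n g (s + 1) = ∑ t ∈ Finset.range (a + b + 1), g t * Fs (a + b) s t := by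
      unfold spl
      rw [hb]
      apply Finset.sum_congr rfl
      intro t _
      unfold f Fs
      have : min (t + 1) (s + 1) = min t s + 1 := by omega
      rw [this]
      push_cast
      rfl
    have e2 : Hc n g A = cst a b g (ind A) := by
      unfold Hc cst
      rw [hb, ha]
      apply Finset.sum_congr rfl
      intro t _
      push_cast
      have : (a : ℝ) + b + 2 - (a + 1) = b + 1 := by ring
      rw [this]
    rw [e1, e2]
    exact h7

theorem real_main (n : ℕ) (hn : 2 ≤ n) (g : ℕ → ℝ) (hg : ∀ t, 0 ≤ g t) (uis : Bool)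
    (A : Finset ℕ) (hA : A ⊆ Finset.range n) (hu : uis = true → A.card ≠ 1 ∧ A.card + 1 ≠ n) :
    ∃ p ≤ n, (uis = true → p ≠ 1 ∧ p + 1 ≠ n) ∧ (p = 0 ∨ p = n ∨ 0 < g (p - 1)) ∧
      spl n g p ≤ Hc n g A := by
  obtain ⟨p, h1, h2, h3⟩ := stepAB n hn g hg uis A hA hu
  obtain ⟨p', h4, h5, h6, h7⟩ := stepC n hn g hg uis p h1 h2
  exact ⟨p', h4, h5, h6, h7.trans h3⟩

/-- average distance of agent `i` to the other members of the coalition `C` -/
noncomputable def avgCost {n : ℕ} (v : Fin n → ℝ) (C : Finset (Fin n)) (i : Fin n) : ℝ :=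
  (∑ j ∈ C.erase i, |v i - v j|) / ((C.card : ℝ) - 1)

/-- cost of agent `i` in the coalition `C`: the average distance to the other members if
`C` has at least two members; in a singleton coalition it is `+∞` in the UIS setting
(`uis = true`) and `0` in the HIS setting (`uis = false`) -/
noncomputable def cost (uis : Bool) {n : ℕ} (v : Fin n → ℝ) (C : Finset (Fin n)) (i : Fin n) :
    WithTop ℝ :=
  if C.card = 1 then (if uis = true then ⊤ else 0) else ((avgCost v C i : ℝ) : WithTop ℝ)

/-- social cost of a set of coalitions -/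
noncomputable def socialCost (uis : Bool) {n : ℕ} (v : Fin n → ℝ) (P : Finset (Finset (Fin n))) :
    WithTop ℝ :=
  ∑ C ∈ P, ∑ i ∈ C, cost uis v C i

/-- coalition structures with at most two coalitions -/
def IsStructure {n : ℕ} (P : Finset (Finset (Fin n))) : Prop :=
  (∀ C ∈ P, C.Nonempty) ∧ (∀ i : Fin n, ∃! C, C ∈ P ∧ i ∈ C) ∧ P.card ≤ 2

/-- optimal structures -/
def IsOptimal (uis : Bool) {n : ℕ} (v : Fin n → ℝ) (P : Finset (Finset (Fin n))) : Prop :=
  IsStructure P ∧ ∀ Q : Finset (Finset (Fin n)), IsStructure Q →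
    socialCost uis v P ≤ socialCost uis v Q

/-- sorted structures -/
def IsSorted {n : ℕ} (v : Fin n → ℝ) (P : Finset (Finset (Fin n))) : Prop :=
  ∀ C ∈ P, ∀ i ∈ C, ∀ j ∈ C, ∀ l : Fin n,
    min (v i) (v j) ≤ v l → v l ≤ max (v i) (v j) → l ∈ C

/-- indicator of `i ≤ t` -/
noncomputable def I (i t : ℕ) : ℝ := if i ≤ t then 1 else 0

theorem tele (u : ℕ → ℝ) (m i : ℕ) (hi : i ≤ m) :
    ∑ t ∈ Finset.range m, (u (t + 1) - u t) * I i t = u m - u i := by
  induction m with
  | zero =>
    have : i = 0 := by omega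
    rw [this]; simp
  | succ m ih =>
    rw [Finset.sum_range_succ]
    by_cases h : i ≤ m
    · rw [ih h]
      unfold I
      rw [if_pos h]
      ring
    · have h1 : i = m + 1 := by omega
      rw [h1]
      have h2 : ∀ t ∈ Finset.range m, (u (t + 1) - u t) * I (m + 1) t = 0 := by
        intro t ht
        rw [Finset.mem_range] at ht
        unfold I
        rw [if_neg (by omega)]
        ring
      rw [Finset.sum_eq_zero h2]
      unfold I
      rw [if_neg (by omega)]
      ring

theorem dist_eq_aux (u : ℕ → ℝ) (hu : Monotone u) (m i j : ℕ) (hj : j ≤ m) (hij : i ≤ j) :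
    |u i - u j| = ∑ t ∈ Finset.range m, (u (t + 1) - u t) * (I i t - I j t) ^ 2 := by
  have h1 : ∀ t ∈ Finset.range m, (u (t + 1) - u t) * (I i t - I j t) ^ 2 =
      (u (t + 1) - u t) * I i t - (u (t + 1) - u t) * I j t := by
    intro t _
    unfold I
    by_cases h2 : j ≤ t
    · rw [if_pos h2, if_pos (by omega)]; ring
    · rw [if_neg h2]
      by_cases h3 : i ≤ t
      · rw [if_pos h3]; ring
      · rw [if_neg h3]; ring
  rw [Finset.sum_congr rfl h1, Finset.sum_sub_distrib, tele u m i (by omega), tele u m j hj]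
  rw [abs_of_nonpos (by have := hu hij; linarith)]
  ring

theorem dist_eq (u : ℕ → ℝ) (hu : Monotone u) (m i j : ℕ) (hi : i ≤ m) (hj : j ≤ m) :
    |u i - u j| = ∑ t ∈ Finset.range m, (u (t + 1) - u t) * (I i t - I j t) ^ 2 := by
  rcases le_total i j with h | h
  · exact dist_eq_aux u hu m i j hj h
  · rw [abs_sub_comm, dist_eq_aux u hu m j i hi h]
    apply Finset.sum_congr rfl
    intro t _
    ring

theorem X_eq_sum (D : Finset ℕ) (t : ℕ) : X (ind D) (t + 1) = ∑ k ∈ D, I k t := by
  unfold X ind I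
  rw [Finset.sum_boole, Finset.sum_boole]
  congr 2
  ext k
  simp only [Finset.mem_filter, Finset.mem_range]
  constructor
  · rintro ⟨h1, h2⟩; exact ⟨h2, by omega⟩
  · rintro ⟨h1, h2⟩; exact ⟨by omega, h1⟩

/-- real part of the cost of a coalition -/
noncomputable def rS {n : ℕ} (v : Fin n → ℝ) (C : Finset (Fin n)) : ℝ :=
  ∑ i ∈ C, avgCost v C i

theorem rS_eq (n : ℕ) (u : ℕ → ℝ) (hu : Monotone u) (v : Fin n → ℝ)
    (hv : ∀ i : Fin n, v i = u i) (C : Finset (Fin n)) :
    rS v C = 2 * ∑ t ∈ Finset.range (n - 1), (u (t + 1) - u t) *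
      (X (ind (C.map Fin.valEmbedding)) (t + 1) *
        (C.card - X (ind (C.map Fin.valEmbedding)) (t + 1)) / ((C.card : ℝ) - 1)) := by
  have hx : ∀ t, X (ind (C.map Fin.valEmbedding)) (t + 1) = ∑ i ∈ C, I i t := by
    intro t
    rw [X_eq_sum, Finset.sum_map]
    rfl
  have h1 : ∀ i ∈ C, avgCost v C i = (∑ j ∈ C, |v i - v j|) / ((C.card : ℝ) - 1) := by
    intro i hi
    unfold avgCost
    congr 1
    rw [← Finset.add_sum_erase C (fun j => |v i - v j|) hi]
    simp
  have h2 : ∑ i ∈ C, ∑ j ∈ C, |v i - v j| = ∑ t ∈ Finset.range (n - 1), (u (t + 1) - u t) *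
      (2 * (C.card * X (ind (C.map Fin.valEmbedding)) (t + 1) -
        X (ind (C.map Fin.valEmbedding)) (t + 1) ^ 2)) := by
    have h3 : ∀ i ∈ C, ∀ j ∈ C, |v i - v j| =
        ∑ t ∈ Finset.range (n - 1), (u (t + 1) - u t) * (I i t - I j t) ^ 2 := by
      intro i _ j _
      rw [hv, hv]
      exact dist_eq u hu (n - 1) i j (by omega) (by omega)
    rw [Finset.sum_congr rfl (fun i hi => Finset.sum_congr rfl (fun j hj => h3 i hi j hj))]
    have h4 : ∀ i ∈ C, ∑ j ∈ C, ∑ t ∈ Finset.range (n - 1),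
        (u (t + 1) - u t) * (I i t - I j t) ^ 2 = ∑ t ∈ Finset.range (n - 1), ∑ j ∈ C,
        (u (t + 1) - u t) * (I i t - I j t) ^ 2 := fun i _ => Finset.sum_comm
    rw [Finset.sum_congr rfl h4, Finset.sum_comm]
    apply Finset.sum_congr rfl
    intro t _
    have h5 : ∀ i ∈ C, ∑ j ∈ C, (u (t + 1) - u t) * (I i t - I j t) ^ 2 =
        (u (t + 1) - u t) * (C.card * I i t - 2 * I i t * (∑ j ∈ C, I j t) +
          ∑ j ∈ C, I j t) := by
      intro i _
      have hsq : ∀ k : Fin n, I k t * I k t = I k t := by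
        intro k
        unfold I
        split_ifs <;> norm_num
      have h6 : ∀ j ∈ C, (u (t + 1) - u t) * (I i t - I j t) ^ 2 =
          (u (t + 1) - u t) * (I i t) - (u (t + 1) - u t) * (2 * I i t) * I j t +
            (u (t + 1) - u t) * I j t := by
        intro j _
        linear_combination (u (t + 1) - u t) * hsq i + (u (t + 1) - u t) * hsq j
      rw [Finset.sum_congr rfl h6, Finset.sum_add_distrib, Finset.sum_sub_distrib,
        ← Finset.mul_sum, ← Finset.mul_sum, ← Finset.mul_sum, Finset.sum_const, nsmul_eq_mul]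
      ring
    rw [Finset.sum_congr rfl h5, ← Finset.mul_sum, hx]
    congr 1
    rw [Finset.sum_add_distrib, Finset.sum_sub_distrib, ← Finset.mul_sum, ← Finset.sum_mul,
      ← Finset.mul_sum, Finset.sum_const, nsmul_eq_mul]
    ring
  unfold rS
  rw [Finset.sum_congr rfl h1, ← Finset.sum_div, h2, Finset.sum_div, Finset.mul_sum]
  apply Finset.sum_congr rfl
  intro t _
  ring

theorem rS_add (n : ℕ) (u : ℕ → ℝ) (hu : Monotone u) (v : Fin n → ℝ)
    (hv : ∀ i : Fin n, v i = u i) (A : Finset (Fin n)) :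
    rS v A + rS v Aᶜ = 2 * Hc n (fun t => u (t + 1) - u t) (A.map Fin.valEmbedding) := by
  rw [rS_eq n u hu v hv, rS_eq n u hu v hv, ← mul_add, ← Finset.sum_add_distrib]
  congr 1
  unfold Hc
  apply Finset.sum_congr rfl
  intro t ht
  rw [Finset.mem_range] at ht
  have h1 : ((Aᶜ).card : ℝ) = n - A.card := by
    rw [Finset.card_compl, Fintype.card_fin, Nat.cast_sub (by simpa using Finset.card_le_univ A)]
  have h2 : X (ind (Aᶜ.map Fin.valEmbedding)) (t + 1) =
      (t : ℝ) + 1 - X (ind (A.map Fin.valEmbedding)) (t + 1) := by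
    unfold X
    rw [eq_sub_iff_add_eq, ← Finset.sum_add_distrib]
    have : ∀ i ∈ Finset.range (t + 1),
        ind (Aᶜ.map Fin.valEmbedding) i + ind (A.map Fin.valEmbedding) i = 1 := by
      intro i hi
      rw [Finset.mem_range] at hi
      have hin : i < n := by omega
      have e1 : ∀ B : Finset (Fin n), i ∈ B.map Fin.valEmbedding ↔ (⟨i, hin⟩ : Fin n) ∈ B := by
        intro B
        rw [Finset.mem_map]
        constructor
        · rintro ⟨x, hx, hx2⟩
          have : x = ⟨i, hin⟩ := Fin.ext hx2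
          rwa [← this]
        · intro h
          exact ⟨_, h, rfl⟩
      unfold ind
      by_cases h : (⟨i, hin⟩ : Fin n) ∈ A
      · rw [if_neg (by rw [e1]; simp [h]), if_pos (by rw [e1]; exact h)]; ring
      · rw [if_pos (by rw [e1]; simp [h]), if_neg (by rw [e1]; exact h)]; ring
    rw [Finset.sum_congr rfl this]
    simp
  rw [h1, h2, Finset.card_map]
  unfold F
  ring

/-- the first `p` agents -/
def pre (n p : ℕ) : Finset (Fin n) := Finset.univ.filter (fun i => i.val < p)

theorem pre_map (n p : ℕ) (hp : p ≤ n) : (pre n p).map Fin.valEmbedding = Finset.range p := by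
  ext k
  rw [Finset.mem_map, Finset.mem_range]
  constructor
  · rintro ⟨x, hx, rfl⟩
    unfold pre at hx
    rw [Finset.mem_filter] at hx
    exact hx.2
  · intro h
    refine ⟨⟨k, by omega⟩, ?_, rfl⟩
    unfold pre
    rw [Finset.mem_filter]
    exact ⟨Finset.mem_univ _, h⟩

theorem Hc_range (n : ℕ) (g : ℕ → ℝ) (p : ℕ) : Hc n g (Finset.range p) = spl n g p := by
  unfold Hc spl
  apply Finset.sum_congr rfl
  intro t _
  have : X (ind (Finset.range p)) (t + 1) = ((min (t + 1) p : ℕ) : ℝ) := by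
    unfold X ind
    rw [Finset.sum_boole]
    congr 1
    have h1 : (Finset.range (t + 1)).filter (fun x => x ∈ Finset.range p) =
        Finset.range (min (t + 1) p) := by
      ext x
      simp only [Finset.mem_filter, Finset.mem_range]
      omega
    rw [h1, Finset.card_range]
  rw [this, Finset.card_range]
  unfold f
  push_cast
  rfl

/-- the coalition structure consisting of `A` and its complement -/
def st {n : ℕ} (A : Finset (Fin n)) : Finset (Finset (Fin n)) :=
  ({A, Aᶜ} : Finset (Finset (Fin n))).filter (fun C => C.Nonempty)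

theorem st_structure {n : ℕ} (A : Finset (Fin n)) : IsStructure (st A) := by
  refine ⟨?_, ?_, ?_⟩
  · intro C hC
    unfold st at hC
    exact (Finset.mem_filter.1 hC).2
  · intro i
    by_cases h : i ∈ A
    · refine ⟨A, ⟨?_, h⟩, ?_⟩
      · unfold st
        rw [Finset.mem_filter]
        exact ⟨Finset.mem_insert_self _ _, ⟨i, h⟩⟩
      · rintro C ⟨hC, hi⟩
        unfold st at hC
        rw [Finset.mem_filter, Finset.mem_insert, Finset.mem_singleton] at hC
        rcases hC.1 with h1 | h1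
        · exact h1
        · rw [h1] at hi
          exact absurd h (Finset.mem_compl.1 hi)
    · refine ⟨Aᶜ, ⟨?_, Finset.mem_compl.2 h⟩, ?_⟩
      · unfold st
        rw [Finset.mem_filter]
        exact ⟨Finset.mem_insert_of_mem (Finset.mem_singleton_self _), ⟨i, Finset.mem_compl.2 h⟩⟩
      · rintro C ⟨hC, hi⟩
        unfold st at hC
        rw [Finset.mem_filter, Finset.mem_insert, Finset.mem_singleton] at hC
        rcases hC.1 with h1 | h1
        · rw [h1] at hi
          exact absurd hi h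
        · exact h1
  · unfold st
    exact (Finset.card_filter_le _ _).trans Finset.card_le_two

theorem st_cost (uis : Bool) {n : ℕ} (hn : 2 ≤ n) (v : Fin n → ℝ) (A : Finset (Fin n)) :
    socialCost uis v (st A) = ∑ i ∈ A, cost uis v A i + ∑ i ∈ Aᶜ, cost uis v Aᶜ i := by
  unfold socialCost st
  rw [Finset.sum_filter_of_ne]
  · rw [Finset.sum_pair]
    intro h
    have h0 : (⟨0, by omega⟩ : Fin n) ∈ A ↔ (⟨0, by omega⟩ : Fin n) ∈ Aᶜ := by rw [← h]
    rw [Finset.mem_compl] at h0
    exact iff_not_self h0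
  · intro C _ hC
    by_contra h
    rw [Finset.not_nonempty_iff_eq_empty] at h
    rw [h] at hC
    simp at hC

theorem structure_form {n : ℕ} (hn : 2 ≤ n) (P : Finset (Finset (Fin n))) (hP : IsStructure P) :
    ∃ A : Finset (Fin n), P = st A := by
  obtain ⟨h1, h2, h3⟩ := hP
  obtain ⟨A, ⟨hA, hA0⟩, _⟩ := h2 ⟨0, by omega⟩
  refine ⟨A, ?_⟩
  have huniq : ∀ C ∈ P, C ≠ A → C = Aᶜ := by
    intro C hC hCA
    have hcard : (P.erase A).card ≤ 1 := by
      rw [Finset.card_erase_of_mem hA]; omega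
    have hC' : C ∈ P.erase A := Finset.mem_erase.2 ⟨hCA, hC⟩
    ext i
    rw [Finset.mem_compl]
    constructor
    · intro hi hiA
      exact hCA ((h2 i).unique ⟨hC, hi⟩ ⟨hA, hiA⟩)
    · intro hi
      obtain ⟨D, ⟨hD, hiD⟩, _⟩ := h2 i
      have hDA : D ≠ A := by
        intro h
        rw [h] at hiD
        exact hi hiD
      have hD' : D ∈ P.erase A := Finset.mem_erase.2 ⟨hDA, hD⟩
      rw [Finset.card_le_one.1 hcard C hC' D hD']
      exact hiD
  ext C
  unfold st
  rw [Finset.mem_filter, Finset.mem_insert, Finset.mem_singleton]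
  constructor
  · intro hC
    refine ⟨?_, h1 C hC⟩
    by_cases h : C = A
    · exact Or.inl h
    · exact Or.inr (huniq C hC h)
  · rintro ⟨h | h, hne⟩
    · rw [h]; exact hA
    · rw [h] at hne ⊢
      obtain ⟨i, hi⟩ := hne
      rw [Finset.mem_compl] at hi
      obtain ⟨D, ⟨hD, hiD⟩, _⟩ := h2 i
      have hDA : D ≠ A := by
        intro h
        rw [h] at hiD
        exact hi hiD
      rw [← huniq D hD hDA]
      exact hD

theorem sum_cost (uis : Bool) {n : ℕ} (v : Fin n → ℝ) (A : Finset (Fin n))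
    (h : uis = true → A.card ≠ 1) : ∑ i ∈ A, cost uis v A i = ((rS v A : ℝ) : WithTop ℝ) := by
  unfold rS
  rw [WithTop.coe_sum]
  apply Finset.sum_congr rfl
  intro i hi
  unfold cost
  split_ifs with h1 h2
  · exact absurd h1 (h h2)
  · obtain ⟨j, hj⟩ := Finset.card_eq_one.1 h1
    have hij : i = j := by rw [hj] at hi; exact Finset.mem_singleton.1 hi
    have : avgCost v A i = 0 := by
      unfold avgCost
      rw [hj, hij]
      simp
    rw [this]
    rfl
  · rfl

theorem sum_cost_top {n : ℕ} (v : Fin n → ℝ) (A : Finset (Fin n)) (h : A.card = 1) :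
    ∑ i ∈ A, cost true v A i = ⊤ := by
  obtain ⟨j, hj⟩ := Finset.card_eq_one.1 h
  rw [hj, Finset.sum_singleton]
  unfold cost
  rw [if_pos (Finset.card_singleton j)]
  simp

/-- **Main theorem.** For average-distance costs, in both the HIS and the UIS setting, every
instance has a sorted optimal coalition structure with at most two coalitions. -/
theorem result : ∀ n : ℕ, 2 ≤ n → ∀ v : Fin n → ℝ, Monotone v → ∀ uis : Bool,
    ∃ P : Finset (Finset (Fin n)), IsOptimal uis v P ∧ IsSorted v P := by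
  classical
  intro n hn v hv uis
  have hmin : ∀ k : ℕ, min k (n - 1) < n := fun k => by omega
  let u : ℕ → ℝ := fun k => v ⟨min k (n - 1), hmin k⟩
  have hu : Monotone u := by
    intro i j hij
    apply hv
    rw [Fin.mk_le_mk]
    omega
  have hvu : ∀ i : Fin n, v i = u i := by
    intro i
    show v i = v ⟨min i.val (n - 1), _⟩
    congr 1
    ext
    show i.val = min i.val (n - 1)
    omega
  set g : ℕ → ℝ := fun t => u (t + 1) - u t with hgdef
  have hg : ∀ t, 0 ≤ g t := fun t => sub_nonneg.2 (hu (Nat.le_succ t))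
  have hSC : ∀ A : Finset (Fin n), (uis = true → A.card ≠ 1 ∧ A.card + 1 ≠ n) →
      socialCost uis v (st A) = ((2 * Hc n g (A.map Fin.valEmbedding) : ℝ) : WithTop ℝ) := by
    intro A hA
    rw [st_cost uis hn, sum_cost uis v A (fun h => (hA h).1), sum_cost uis v Aᶜ (fun h => by
      have := (hA h).2
      rw [Finset.card_compl, Fintype.card_fin]
      omega), ← WithTop.coe_add, rS_add n u hu v hvu A]
  have hadm : ∀ p ≤ n, (pre n p).card = p := by
    intro p hp
    have := congrArg Finset.card (pre_map n p hp)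
    rwa [Finset.card_map, Finset.card_range] at this
  -- choose the best admissible split
  let T : Finset ℕ := (Finset.range (n + 1)).filter
    (fun p => (uis = true → p ≠ 1 ∧ p + 1 ≠ n) ∧ (p = 0 ∨ p = n ∨ 0 < g (p - 1)))
  have hT0 : 0 ∈ T := by
    rw [Finset.mem_filter, Finset.mem_range]
    exact ⟨by omega, fun _ => ⟨by omega, by omega⟩, Or.inl rfl⟩
  obtain ⟨p, hpT, hpmin⟩ := Finset.exists_min_image T (fun p => spl n g p) ⟨0, hT0⟩
  rw [Finset.mem_filter, Finset.mem_range] at hpT
  obtain ⟨hpn, hpadm, hptie⟩ := hpT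
  have hpn' : p ≤ n := by omega
  refine ⟨st (pre n p), ⟨st_structure _, ?_⟩, ?_⟩
  · intro Q hQ
    obtain ⟨A, hA⟩ := structure_form hn Q hQ
    rw [hA]
    by_cases hAc : uis = true → A.card ≠ 1 ∧ A.card + 1 ≠ n
    · rw [hSC A hAc, hSC (pre n p) (by rw [hadm p hpn']; exact hpadm), pre_map n p hpn', Hc_range,
        WithTop.coe_le_coe]
      obtain ⟨q, hq1, hq2, hq3, hq4⟩ := real_main n hn g hg uis (A.map Fin.valEmbedding)
        (by
          intro x hx
          rw [Finset.mem_map] at hx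
          obtain ⟨y, _, rfl⟩ := hx
          exact Finset.mem_range.2 y.2) (by rw [Finset.card_map]; exact hAc)
      have := hpmin q (by
        rw [Finset.mem_filter, Finset.mem_range]
        exact ⟨by omega, hq2, hq3⟩)
      linarith
    · rw [Classical.not_imp] at hAc
      obtain ⟨hu1, hA1⟩ := hAc
      have htop : socialCost uis v (st A) = ⊤ := by
        rw [st_cost uis hn, hu1]
        by_cases h1 : A.card = 1
        · rw [sum_cost_top v A h1, WithTop.top_add]
        · have h2 : Aᶜ.card = 1 := by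
            rw [Finset.card_compl, Fintype.card_fin]
            by_contra h3
            apply hA1
            exact ⟨h1, by omega⟩
          rw [sum_cost_top v Aᶜ h2, WithTop.add_top]
      rw [htop]
      exact le_top
  · -- sortedness
    have hmem : ∀ i : Fin n, i ∈ pre n p ↔ i.val < p := by
      intro i
      unfold pre
      rw [Finset.mem_filter]
      simp
    intro C hC i hi j hj l hl1 hl2
    unfold st at hC
    rw [Finset.mem_filter, Finset.mem_insert, Finset.mem_singleton] at hC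
    rcases hC.1 with h | h
    · rw [h] at hi hj ⊢
      rw [hmem] at hi hj ⊢
      by_contra hc
      rcases hptie with h0 | h0 | h0
      · omega
      · have := l.2
        omega
      · have e1 : v i ≤ u (p - 1) := by rw [hvu]; exact hu (by omega)
        have e2 : v j ≤ u (p - 1) := by rw [hvu]; exact hu (by omega)
        have e3 : u p ≤ v l := by rw [hvu]; exact hu (by omega)
        have e4 : u (p - 1) < u p := by
          have : p - 1 + 1 = p := by omega
          rw [hgdef] at h0
          simp only [this] at h0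
          linarith
        have e5 := max_le e1 e2
        linarith
    · rw [h] at hi hj ⊢
      rw [Finset.mem_compl, hmem] at hi hj ⊢
      intro hc
      rcases hptie with h0 | h0 | h0
      · omega
      · have := i.2
        omega
      · have e1 : u p ≤ v i := by rw [hvu]; exact hu (by omega)
        have e2 : u p ≤ v j := by rw [hvu]; exact hu (by omega)
        have e3 : v l ≤ u (p - 1) := by rw [hvu]; exact hu (by omega)
        have e4 : u (p - 1) < u p := by
          have : p - 1 + 1 = p := by omega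
          rw [hgdef] at h0
          simp only [this] at h0
          linarith
        have e5 := le_min e1 e2
        linarith

end Pool.Agent.Results.MP_e22fa6_co.Sorted
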